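import Pool.Agent.W418.LU2.Ind

/-!
# Regularity of flat extensions
-/

set_option autoImplicit false
set_option linter.unusedVariables false
set_option linter.unusedSectionVars false

universe u

namespace Pool.Agent.T6.H41.TP

open IsLocalRing Pool.Agent.W418.LU2

section

variable {R S S' : Type u} [CommRing R] [IsRegularLocalRing R] [CommRing S]
  [IsNoetherianRing S] [CommRing S'] [Algebra R S] [Module.Flat R S] (q : Ideal S) [q.IsPrime]
  (hq : q.comap (algebraMap R S) = maximalIdeal R) (θ : S →+* S') (hθ : Function.Surjective θ)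
  (hk : RingHom.ker θ = (maximalIdeal R).map (algebraMap R S)) (q' : Ideal S') [q'.IsPrime]
  (hq' : q'.comap θ = q)

include hq hθ hk hq'

/-- The heights in a flat extension. -/
lemma height_add : q.height = (maximalIdeal R).height + q'.height := by
  have hover : q.LiesOver (maximalIdeal R) := ⟨hq.symm⟩
  rw [Ideal.height_eq_height_add_of_liesOver_of_hasGoingDown (maximalIdeal R) q]
  congr 1
  let e : (S ⧸ (maximalIdeal R).map (algebraMap R S)) ≃+* S' :=
    (Ideal.quotEquivOfEq hk.symm).trans (RingHom.quotientKerEquivOfSurjective hθ)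
  have he : ∀ s : S, e (Ideal.Quotient.mk _ s) = θ s := fun s => rfl
  have h1 : q.map (Ideal.Quotient.mk ((maximalIdeal R).map (algebraMap R S))) =
      q'.comap e.toRingHom := by
    apply le_antisymm
    · rw [Ideal.map_le_iff_le_comap]
      intro s hs
      rw [Ideal.mem_comap, Ideal.mem_comap]
      change e (Ideal.Quotient.mk _ s) ∈ q'
      rw [he, ← Ideal.mem_comap, hq']
      exact hs
    · intro x hx
      obtain ⟨s, rfl⟩ := Ideal.Quotient.mk_surjective x
      refine Ideal.mem_map_of_mem _ ?_
      rw [← hq', Ideal.mem_comap, ← he]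
      exact hx
  rw [h1]
  exact e.height_comap q'

/-- The maximal ideal of the localization. -/
lemma span_max {ι κ : Type} [Fintype ι] [Fintype κ] (X : ι → R)
    (hX : Ideal.span (Set.range X) = maximalIdeal R) (w : κ → S)
    (hw : Ideal.span (Set.range fun k => algebraMap S' (Localization.AtPrime q') (θ (w k))) =
      maximalIdeal (Localization.AtPrime q')) :
    Ideal.span (Set.range (Sum.elim
      (fun i => algebraMap S (Localization.AtPrime q) (algebraMap R S (X i)))
      fun k => algebraMap S (Localization.AtPrime q) (w k))) =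
        maximalIdeal (Localization.AtPrime q) := by
  have hmemq : ∀ s : S, algebraMap S (Localization.AtPrime q) s ∈
      maximalIdeal (Localization.AtPrime q) ↔ s ∈ q := fun s =>
    IsLocalization.AtPrime.to_map_mem_maximal_iff _ q _
  have hmemq' : ∀ s : S', algebraMap S' (Localization.AtPrime q') s ∈
      maximalIdeal (Localization.AtPrime q') ↔ s ∈ q' := fun s =>
    IsLocalization.AtPrime.to_map_mem_maximal_iff _ q' _
  apply le_antisymm
  · rw [Ideal.span_le]
    rintro _ ⟨i | k, rfl⟩
    · refine (hmemq _).2 ?_
      rw [← Ideal.mem_comap, hq, ← hX]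
      exact Ideal.subset_span ⟨i, rfl⟩
    · refine (hmemq _).2 ?_
      rw [← hq', Ideal.mem_comap, ← hmemq', ← hw]
      exact Ideal.subset_span ⟨k, rfl⟩
  · rw [← Localization.AtPrime.map_eq_maximalIdeal, Ideal.map_le_iff_le_comap]
    intro s hs
    rw [Ideal.mem_comap]
    have h1 : algebraMap S' (Localization.AtPrime q') (θ s) ∈
        maximalIdeal (Localization.AtPrime q') := by
      rw [hmemq', ← Ideal.mem_comap, hq']
      exact hs
    rw [← hw, Ideal.mem_span_range_iff_exists_fun] at h1
    obtain ⟨c, hc⟩ := h1
    obtain ⟨d, hd⟩ := IsLocalization.exist_integer_multiples q'.primeCompl Finset.univ c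
    choose e he using fun k => hd k (Finset.mem_univ k)
    have h2 : algebraMap S' (Localization.AtPrime q') ((d : S') * θ s) =
        algebraMap S' (Localization.AtPrime q') (∑ k, e k * θ (w k)) := by
      rw [map_mul, ← hc, map_sum, Finset.mul_sum]
      refine Finset.sum_congr rfl fun k _ => ?_
      rw [map_mul, he k, Algebra.smul_def, mul_assoc]
    rw [IsLocalization.eq_iff_exists q'.primeCompl] at h2
    obtain ⟨f, hf⟩ := h2
    obtain ⟨d', hd'⟩ := hθ (d : S')
    obtain ⟨f', hf'⟩ := hθ (f : S')
    choose e' he' using fun k => hθ (e k)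
    have h3 : f' * (d' * s) - f' * ∑ k, e' k * w k ∈ RingHom.ker θ := by
      rw [RingHom.mem_ker, map_sub, map_mul, map_mul, map_mul, map_sum, hd', hf']
      simp only [map_mul, he']
      rw [hf, sub_self]
    rw [hk, ← hX, Ideal.map_span, ← Set.range_comp] at h3
    have hfd : IsUnit (algebraMap S (Localization.AtPrime q) (f' * d')) := by
      have h4 : f' * d' ∈ q.primeCompl := by
        intro h5
        have h6 : f' * d' ∈ q'.comap θ := by
          rw [hq']
          exact h5
        rw [Ideal.mem_comap, map_mul, hf', hd'] at h6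
        exact (q'.primeCompl.mul_mem f.2 d.2) h6
      exact IsLocalization.map_units _ (⟨_, h4⟩ : q.primeCompl)
    rw [← Ideal.unit_mul_mem_iff_mem _ hfd, ← map_mul]
    have h5 : f' * d' * s = (f' * (d' * s) - f' * ∑ k, e' k * w k) + f' * ∑ k, e' k * w k := by
      ring
    rw [h5, map_add]
    refine Ideal.add_mem _ ?_ ?_
    · have h6 := Ideal.mem_map_of_mem (algebraMap S (Localization.AtPrime q)) h3
      rw [Ideal.map_span, ← Set.range_comp] at h6
      refine Ideal.span_mono ?_ h6
      rintro _ ⟨i, rfl⟩
      exact ⟨Sum.inl i, rfl⟩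
    · rw [map_mul, map_sum]
      refine Ideal.mul_mem_left _ _ (Ideal.sum_mem _ fun k _ => ?_)
      rw [map_mul]
      exact Ideal.mul_mem_left _ _ (Ideal.subset_span ⟨Sum.inr k, rfl⟩)

/-- **Flat extensions of regular local rings with regular fibres are regular.** -/
theorem flat_regular (hreg : IsRegularLocalRing (Localization.AtPrime q')) :
    ∃ _ : IsRegularLocalRing (Localization.AtPrime q),
      ∀ {ι κ : Type} [Fintype ι] [Fintype κ] (z : ι → R) (w : κ → S), Ind z →
        Ind (fun k => algebraMap S' (Localization.AtPrime q') (θ (w k))) →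
        Ind (Sum.elim
          (fun i => algebraMap S (Localization.AtPrime q) (algebraMap R S (z i)))
          fun k => algebraMap S (Localization.AtPrime q) (w k)) := by
  classical
  have hdim : ringKrullDim (Localization.AtPrime q) =
      ringKrullDim R + ringKrullDim (Localization.AtPrime q') := by
    rw [IsLocalization.AtPrime.ringKrullDim_eq_height q (Localization.AtPrime q),
      IsLocalization.AtPrime.ringKrullDim_eq_height q' (Localization.AtPrime q'),
      height_add q hq θ hθ hk q' hq', ← IsLocalRing.maximalIdeal_height_eq_ringKrullDim]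
    rfl
  have key : ∀ {ι κ : Type} [Fintype ι] [Fintype κ] (z : ι → R) (w : κ → S), Ind z →
      Ind (fun k => algebraMap S' (Localization.AtPrime q') (θ (w k))) →
      ∃ (a b : ℕ) (X : Fin a → R) (Y : Fin b → S),
        Ideal.span (Set.range (Sum.elim
          (fun i => algebraMap S (Localization.AtPrime q) (algebraMap R S (Sum.elim z X i)))
          fun k => algebraMap S (Localization.AtPrime q) (Sum.elim w Y k))) =
          maximalIdeal (Localization.AtPrime q) ∧
        ringKrullDim (Localization.AtPrime q) =
          ((Fintype.card ((ι ⊕ Fin a) ⊕ (κ ⊕ Fin b)) : ℕ) : WithBot ℕ∞) := by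
    intro ι κ _ _ z w hz hw
    obtain ⟨a, X, hX, hXd⟩ := hz.extend
    obtain ⟨b, Y', hY, hYd⟩ := hw.extend
    choose y' hy' using fun k => IsLocalization.surj q'.primeCompl (Y' k)
    choose y hy using fun k => hθ (y' k).1
    refine ⟨a, b, X, y, ?_, ?_⟩
    · refine span_max q hq θ hθ hk q' hq' (Sum.elim z X) hX (Sum.elim w y) ?_
      rw [← hY]
      have h1 : ∀ k, algebraMap S' (Localization.AtPrime q') (θ (y k)) =
          Y' k * algebraMap S' (Localization.AtPrime q') ((y' k).2 : S') := by
        intro k
        rw [hy, hy']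
      have h2 : ∀ k, IsUnit (algebraMap S' (Localization.AtPrime q') ((y' k).2 : S')) :=
        fun k => IsLocalization.map_units _ (y' k).2
      apply le_antisymm
      · rw [Ideal.span_le]
        rintro _ ⟨k | k, rfl⟩
        · exact Ideal.subset_span ⟨Sum.inl k, rfl⟩
        · change algebraMap S' (Localization.AtPrime q') (θ (y k)) ∈ _
          rw [h1]
          exact Ideal.mul_mem_right _ _ (Ideal.subset_span ⟨Sum.inr k, rfl⟩)
      · rw [Ideal.span_le]
        rintro _ ⟨k | k, rfl⟩
        · exact Ideal.subset_span ⟨Sum.inl k, rfl⟩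
        · change Y' k ∈ _
          refine (Ideal.mul_unit_mem_iff_mem _ (h2 k)).1 ?_
          rw [← h1]
          exact Ideal.subset_span ⟨Sum.inr k, rfl⟩
    · rw [hdim, hXd, hYd]
      simp only [Fintype.card_sum, Fintype.card_fin]
      norm_cast
  have hreg' : IsRegularLocalRing (Localization.AtPrime q) := by
    have hn : IsNoetherianRing (Localization.AtPrime q) :=
      IsLocalization.isNoetherianRing q.primeCompl _ inferInstance
    obtain ⟨a, b, X, Y, h1, h2⟩ := key (ι := Empty) (κ := Empty) (fun i => i.elim)
      (fun i => i.elim) ⟨fun i => i.elim, fun _ _ i => i.elim⟩ ⟨fun i => i.elim, fun _ _ i => i.elim⟩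
    apply IsRegularLocalRing.of_spanFinrank_maximalIdeal_le
    rw [h2, ← h1]
    have h3 : (Submodule.spanFinrank (Ideal.span (Set.range (Sum.elim
          (fun i => algebraMap S (Localization.AtPrime q) (algebraMap R S
            (Sum.elim (fun i : Empty => i.elim) X i)))
          fun k => algebraMap S (Localization.AtPrime q)
            (Sum.elim (fun i : Empty => i.elim) Y k))))) ≤
        Fintype.card ((Empty ⊕ Fin a) ⊕ (Empty ⊕ Fin b)) := by
      refine (Submodule.spanFinrank_span_le_ncard_of_finite (Set.finite_range _)).trans ?_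
      rw [← Set.image_univ]
      refine (Set.ncard_image_le (Set.finite_univ)).trans ?_
      rw [Set.ncard_univ, Nat.card_eq_fintype_card]
    exact_mod_cast h3
  refine ⟨hreg', fun {ι κ} _ _ z w hz hw => ?_⟩
  obtain ⟨a, b, X, Y, h1, h2⟩ := key z w hz hw
  have h3 := ind_of_span h1 h2.ge
  have h4 := h3.comp (Sum.map Sum.inl Sum.inl : ι ⊕ κ → (ι ⊕ Fin a) ⊕ (κ ⊕ Fin b))
    (Function.Injective.sumMap Sum.inl_injective Sum.inl_injective)
  have h5 : (Sum.elim
      (fun i => algebraMap S (Localization.AtPrime q) (algebraMap R S (Sum.elim z X i)))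
      fun k => algebraMap S (Localization.AtPrime q) (Sum.elim w Y k)) ∘
        (Sum.map Sum.inl Sum.inl : ι ⊕ κ → (ι ⊕ Fin a) ⊕ (κ ⊕ Fin b)) = Sum.elim
          (fun i => algebraMap S (Localization.AtPrime q) (algebraMap R S (z i)))
          fun k => algebraMap S (Localization.AtPrime q) (w k) := by
    funext i
    rcases i with i | i <;> rfl
  rw [h5] at h4
  exact h4

end

end Pool.Agent.T6.H41.TP
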