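import Pool.Agent.H920R2.Sr1

/-!
# Regularity of formally smooth algebras over fields
-/

set_option autoImplicit false
set_option linter.unusedVariables false
set_option linter.unusedSectionVars false

namespace Pool.Agent.T6.H41.TP

open IsLocalRing TensorProduct

/-- Algebras over a field are regular at the points where they are smooth. -/
theorem regular_of_smoothAt {k A : Type} [Field k] [CommRing A] [Algebra k A]
    [Algebra.FinitePresentation k A] (q : Ideal A) [q.IsPrime] [Algebra.IsSmoothAt k q] :
    IsRegularLocalRing (Localization.AtPrime q) := by
  obtain ⟨f, hf, n, alg, tower, het⟩ :=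
    Algebra.IsSmoothAt.exists_isStandardEtale_mvPolynomial (R := k) (S := A) (p := q)
  have het' : Algebra.Etale (MvPolynomial (Fin n) k) (Localization.Away f) := inferInstance
  have hQ : (Ideal.map (algebraMap A (Localization.Away f)) q).IsPrime :=
    IsLocalization.isPrime_of_isPrime_disjoint (.powers f) _ _ ‹_›
      ((Ideal.disjoint_powers_iff_notMem_of_isPrime _).mpr hf)
  have h1 := Pool.Agent.H920R2.regular_of_etale (P := MvPolynomial (Fin n) k)
    (Ideal.map (algebraMap A (Localization.Away f)) q)
  have h2 : (Ideal.map (algebraMap A (Localization.Away f)) q).comap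
      (algebraMap A (Localization.Away f)) = q :=
    IsLocalization.comap_map_of_isPrime_disjoint (.powers f) _ ‹_›
      ((Ideal.disjoint_powers_iff_notMem_of_isPrime _).mpr hf)
  have h3 := IsLocalization.isLocalization_isLocalization_atPrime_isLocalization (.powers f)
    (Localization.AtPrime (Ideal.map (algebraMap A (Localization.Away f)) q))
    (Ideal.map (algebraMap A (Localization.Away f)) q)
  simp only [h2] at h3
  exact IsRegularLocalRing.of_ringEquiv (IsLocalization.algEquiv q.primeCompl
    (Localization.AtPrime (Ideal.map (algebraMap A (Localization.Away f)) q))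
    (Localization.AtPrime q)).toRingEquiv

/-- Formally smooth algebras essentially of finite type over a field are regular. -/
theorem regular_of_formallySmooth {k A : Type} [Field k] [CommRing A] [Algebra k A]
    [Algebra.FormallySmooth k A] [Algebra.EssFiniteType k A] (q : Ideal A) [q.IsPrime] :
    IsRegularLocalRing (Localization.AtPrime q) := by
  let A0 := Algebra.EssFiniteType.subalgebra k A
  let M := Algebra.EssFiniteType.submonoid k A
  have hloc : IsLocalization M A := inferInstance
  let q0 : Ideal A0 := q.comap (algebraMap A0 A)
  have hfp : Algebra.FinitePresentation k A0 := Algebra.FinitePresentation.of_finiteType.1 inferInstance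
  have hl : IsLocalization.AtPrime (Localization.AtPrime q) q0 :=
    IsLocalization.isLocalization_isLocalization_atPrime_isLocalization M
      (Localization.AtPrime q) q
  let e : Localization.AtPrime q0 ≃ₐ[A0] Localization.AtPrime q :=
    IsLocalization.algEquiv q0.primeCompl _ _
  have h1 : Algebra.FormallySmooth A (Localization.AtPrime q) :=
    Algebra.FormallySmooth.of_isLocalization q.primeCompl
  have h2 : Algebra.FormallySmooth k (Localization.AtPrime q) :=
    Algebra.FormallySmooth.comp k A (Localization.AtPrime q)
  have h3 : Algebra.IsSmoothAt k q0 := by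
    exact Algebra.FormallySmooth.of_equiv (e.restrictScalars k).symm
  have h4 := regular_of_smoothAt (k := k) q0
  exact IsRegularLocalRing.of_ringEquiv e.toRingEquiv

/-- Tensor products of fields with formally smooth extensions are regular. -/
theorem regular_tensor {k κ₁ κ₂ : Type} [Field k] [Field κ₁] [Field κ₂]
    [Algebra k κ₁] [Algebra k κ₂] [Algebra.EssFiniteType k κ₂] [Algebra.FormallySmooth k κ₂]
    (q : Ideal (κ₁ ⊗[k] κ₂)) [q.IsPrime] : IsRegularLocalRing (Localization.AtPrime q) :=
  regular_of_formallySmooth (k := κ₁) q

end Pool.Agent.T6.H41.TP
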