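import Pool.Agent.T6.H41.TP.A1
import Pool.Agent.T6.H41.TP.A3

/-!
# Tensor products of regular local rings over perfect fields
-/

set_option autoImplicit false
set_option linter.unusedVariables false
set_option linter.unusedSectionVars false

namespace Pool.Agent.T6.H41.TP

open IsLocalRing Pool.Agent.W418.LU2 TensorProduct

/-- The image of a prime ideal under a surjection. -/
lemma map_prime {S S' : Type} [CommRing S] [CommRing S'] (θ : S →+* S')
    (hθ : Function.Surjective θ) (q : Ideal S) [q.IsPrime] (hk : RingHom.ker θ ≤ q) :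
    (q.map θ).IsPrime ∧ (q.map θ).comap θ = q := by
  refine ⟨Ideal.map_isPrime_of_surjective hθ hk, ?_⟩
  rw [Ideal.comap_map_of_surjective θ hθ, sup_eq_left]
  exact hk

section

variable {k P₁ P₂ : Type} [Field k] [CommRing P₁] [CommRing P₂] [IsLocalRing P₁]
  [Algebra k P₁] [Algebra k P₂]

/-- The reduction of the first factor, with the factors exchanged. -/
noncomputable def red (k P₁ P₂ : Type) [Field k] [CommRing P₁] [CommRing P₂] [IsLocalRing P₁]
    [Algebra k P₁] [Algebra k P₂] : P₁ ⊗[k] P₂ →+* P₂ ⊗[k] (ResidueField P₁) :=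
  ((Algebra.TensorProduct.comm k (ResidueField P₁) P₂).toAlgHom.comp
    (Algebra.TensorProduct.map (IsScalarTower.toAlgHom k P₁ (ResidueField P₁))
      (AlgHom.id k P₂))).toRingHom

lemma red_tmul (a : P₁) (b : P₂) : red k P₁ P₂ (a ⊗ₜ b) = b ⊗ₜ (residue P₁ a) := rfl

lemma red_surj : Function.Surjective (red k P₁ P₂) := by
  refine (Algebra.TensorProduct.comm k (ResidueField P₁) P₂).surjective.comp ?_
  exact TensorProduct.map_surjective (residue_surjective (R := P₁)) Function.surjective_id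

lemma red_ker : RingHom.ker (red k P₁ P₂) =
    (maximalIdeal P₁).map (algebraMap P₁ (P₁ ⊗[k] P₂)) := by
  have h1 : RingHom.ker (red k P₁ P₂) = RingHom.ker (Algebra.TensorProduct.map
      (IsScalarTower.toAlgHom k P₁ (ResidueField P₁)) (AlgHom.id k P₂)) := by
    ext x
    rw [RingHom.mem_ker, RingHom.mem_ker]
    exact (Algebra.TensorProduct.comm k (ResidueField P₁) P₂).map_eq_zero_iff
  rw [h1, Algebra.TensorProduct.rTensor_ker _ (residue_surjective (R := P₁))]
  have h2 : RingHom.ker (IsScalarTower.toAlgHom k P₁ (ResidueField P₁)) = maximalIdeal P₁ :=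
    ker_residue
  rw [h2]
  rfl

end

/-- The tensor product of two regular local rings at a prime ideal over the maximal ideals. -/
theorem tensor_regular {k P₁ P₂ : Type} [Field k] [CommRing P₁]
    [IsRegularLocalRing P₁] [CommRing P₂] [IsRegularLocalRing P₂] [Algebra k P₁] [Algebra k P₂]
    [Algebra.EssFiniteType k P₂] (hfs : Algebra.FormallySmooth k (ResidueField P₂))
    (q : Ideal (P₁ ⊗[k] P₂)) [q.IsPrime]
    (h1 : q.comap (algebraMap P₁ (P₁ ⊗[k] P₂)) = maximalIdeal P₁)
    (h2 : ∀ b : P₂, (1 : P₁) ⊗ₜ[k] b ∈ q ↔ b ∈ maximalIdeal P₂) :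
    ∃ _ : IsRegularLocalRing (Localization.AtPrime q), ∀ {ι κ : Type} [Fintype ι] [Fintype κ]
      (z : ι → P₁) (w : κ → P₂), Ind z → Ind w → Ind (Sum.elim
        (fun i => algebraMap (P₁ ⊗[k] P₂) (Localization.AtPrime q) (z i ⊗ₜ 1))
        (fun j => algebraMap (P₁ ⊗[k] P₂) (Localization.AtPrime q) (1 ⊗ₜ w j))) := by
  have hN : IsNoetherianRing (P₁ ⊗[k] P₂) :=
    Algebra.EssFiniteType.isNoetherianRing P₁ (P₁ ⊗[k] P₂)
  have hk1 : RingHom.ker (red k P₁ P₂) ≤ q := by
    rw [red_ker, Ideal.map_le_iff_le_comap, h1]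
  obtain ⟨hp1, hc1⟩ := map_prime (red k P₁ P₂) red_surj q hk1
  have hN' : IsNoetherianRing (P₂ ⊗[k] (ResidueField P₁)) :=
    isNoetherianRing_of_surjective _ _ (red k P₁ P₂) red_surj
  -- the second reduction
  have h3 : (q.map (red k P₁ P₂)).comap (algebraMap P₂ (P₂ ⊗[k] (ResidueField P₁))) =
      maximalIdeal P₂ := by
    ext b
    rw [Ideal.mem_comap, ← h2]
    have h4 : algebraMap P₂ (P₂ ⊗[k] (ResidueField P₁)) b =
        red k P₁ P₂ ((1 : P₁) ⊗ₜ[k] b) := by
      rw [red_tmul, map_one]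
      rfl
    rw [h4, ← Ideal.mem_comap, hc1]
  have hk2 : RingHom.ker (red k P₂ (ResidueField P₁)) ≤ q.map (red k P₁ P₂) := by
    rw [red_ker, Ideal.map_le_iff_le_comap, h3]
  obtain ⟨hp2, hc2⟩ := map_prime (red k P₂ (ResidueField P₁)) red_surj (q.map (red k P₁ P₂)) hk2
  have hess : Algebra.EssFiniteType k (ResidueField P₂) :=
    Algebra.EssFiniteType.of_surjective (IsScalarTower.toAlgHom k P₂ (ResidueField P₂))
      residue_surjective
  have hreg2 := regular_tensor ((q.map (red k P₁ P₂)).map (red k P₂ (ResidueField P₁)))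
  obtain ⟨hreg1, hind1⟩ := flat_regular (R := P₂) (q.map (red k P₁ P₂)) h3
    (red k P₂ (ResidueField P₁)) red_surj red_ker _ hc2 hreg2
  obtain ⟨hreg, hind⟩ := flat_regular (R := P₁) q h1 (red k P₁ P₂) red_surj red_ker _ hc1 hreg1
  refine ⟨hreg, fun {ι κ} _ _ z w hz hw => ?_⟩
  refine hind z (fun j => (1 : P₁) ⊗ₜ[k] w j) hz ?_
  have h5 := hind1 w (fun i : Empty => i.elim) hw ⟨fun i => i.elim, fun _ _ i => i.elim⟩
  exact h5.comp Sum.inl Sum.inl_injective

end Pool.Agent.T6.H41.TP
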