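import Pool.Agent.T6.H41.TP.A2
import Pool.Agent.H176.DT.Stm

/-!
# Products of local rings in a field
-/

set_option autoImplicit false
set_option linter.unusedVariables false
set_option linter.unusedSectionVars false

namespace Pool.Agent.T6.H41.TP

open IsLocalRing Pool.Agent.W418.LU2 TensorProduct

section ess

variable {k N : Type} [Field k] [Field N] [Algebra k N]

/-- The structure of an algebra over the constants. -/
@[reducible] def subAlg (k : Type) {N : Type} [Field k] [Field N] [Algebra k N] (P : Subring N)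
    (hk : ∀ c : k, algebraMap k N c ∈ P) : Algebra k P :=
  ((algebraMap k N).codRestrict P hk).toAlgebra

/-- Local rings of affine varieties are essentially of finite type. -/
theorem essFinite_lo (A C : Subring N) (hCA : C ≤ A) (hk : ∀ c : k, algebraMap k N c ∈ lo A C)
    (s : Set N) (hs : s.Finite) (hC : C = Subring.closure (Set.range (algebraMap k N) ∪ s)) :
    letI := subAlg k (lo A C) hk
    Algebra.EssFiniteType k (lo A C) := by
  classical
  let _ := subAlg k (lo A C) hk
  have hsC : ∀ z ∈ s, z ∈ lo A C := fun z hz => le_lo _ _ (by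
    rw [hC]; exact Subring.subset_closure (Or.inr hz))
  let g : s → lo A C := fun z => ⟨z.1, hsC z.1 z.2⟩
  have hf : (Set.range g).Finite := by
    have := hs.to_subtype
    exact Set.finite_range g
  refine ⟨⟨hf.toFinset, ?_⟩⟩
  rw [Set.Finite.coe_toFinset]
  have hmem : ∀ z (hz : z ∈ C), (⟨z, le_lo _ _ hz⟩ : lo A C) ∈ Algebra.adjoin k (Set.range g) := by
    intro z hz
    have h1 : Subring.closure (Set.range (algebraMap k N) ∪ s) ≤
        (Algebra.adjoin k (Set.range g)).toSubring.map (lo A C).subtype := by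
      rw [Subring.closure_le]
      rintro _ (⟨c, rfl⟩ | hz)
      · exact ⟨_, (Algebra.adjoin k (Set.range g)).algebraMap_mem c, rfl⟩
      · exact ⟨g ⟨_, hz⟩, Algebra.subset_adjoin ⟨_, rfl⟩, rfl⟩
    have h2 : z ∈ Subring.closure (Set.range (algebraMap k N) ∪ s) := by
      rw [← hC]; exact hz
    obtain ⟨w, hw, hw'⟩ := h1 h2
    have h3 : (⟨z, le_lo _ _ hz⟩ : lo A C) = w := Subtype.ext hw'.symm
    rw [h3]
    exact hw
  exact
    { map_units := fun y => y.2
      surj := by
        rintro ⟨z, a, ha, b, hb, hb0, hbA, rfl⟩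
        refine ⟨(⟨⟨a, le_lo _ _ ha⟩, hmem a ha⟩, ⟨⟨⟨b, le_lo _ _ hb⟩, hmem b hb⟩, ?_⟩), ?_⟩
        · change IsUnit (⟨b, le_lo _ _ hb⟩ : lo A C)
          rw [isUnit_lo_iff hCA]
          exact ⟨hb0, hbA⟩
        · apply Subtype.ext
          change a * b⁻¹ * b = a
          rw [mul_assoc, inv_mul_cancel₀ hb0, mul_one]
      exists_of_eq := by
        intro a b h
        refine ⟨1, ?_⟩
        have h1 : (a : lo A C) = b := h
        rw [Subtype.ext h1] }

end ess

section prod

variable {k N : Type} [Field k] [Field N] [Algebra k N]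

/-- Elementary form of linear disjointness. -/
def Dj (k : Type) {N : Type} [Field k] [Field N] [Algebra k N] (S S' : Set N) : Prop :=
  ∀ (n : ℕ) (a b : Fin n → N), (∀ j, a j ∈ S) → (∀ j, b j ∈ S') → LinearIndependent k a →
    ∑ j, a j * b j = 0 → ∀ j, b j = 0

/-- The product map of linearly disjoint subrings is injective. -/
theorem prod_inj (P₁ P₂ : Subring N) (hk₁ : ∀ c : k, algebraMap k N c ∈ P₁)
    (hk₂ : ∀ c : k, algebraMap k N c ∈ P₂) (hd : Dj k (P₁ : Set N) (P₂ : Set N))
    (i₁ : Algebra k P₁) (i₂ : Algebra k P₂) (φ₁ : P₁ →ₐ[k] N) (φ₂ : P₂ →ₐ[k] N)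
    (h₁ : ∀ a, φ₁ a = a) (h₂ : ∀ a, φ₂ a = a) :
    Function.Injective (Algebra.TensorProduct.productMap φ₁ φ₂) := by
  classical
  rw [injective_iff_map_eq_zero]
  intro t ht
  let ℬ := Module.Free.chooseBasis k P₁
  obtain ⟨c, rfl⟩ := TensorProduct.eq_repr_basis_left ℬ t
  rw [Finsupp.sum, map_sum] at ht
  let q := c.support.equivFin
  have h3 : LinearIndependent k (fun j : Fin c.support.card => ((ℬ (q.symm j) : P₁) : N)) := by
    have h4 : LinearIndependent k (fun j : Fin c.support.card => ℬ ((q.symm j : c.support) : _)) :=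
      ℬ.linearIndependent.comp (fun j : Fin c.support.card => ((q.symm j : c.support) : _))
        (Subtype.val_injective.comp q.symm.injective)
    have h5 : Function.Injective φ₁.toLinearMap := by
      intro a b hab
      have h6 : φ₁ a = φ₁ b := hab
      rw [h₁, h₁] at h6
      exact Subtype.ext h6
    have h6 := h4.map' φ₁.toLinearMap (LinearMap.ker_eq_bot.2 h5)
    have h7 : (⇑φ₁.toLinearMap ∘ fun j : Fin c.support.card => ℬ ((q.symm j : c.support) : _)) =
        fun j : Fin c.support.card => ((ℬ (q.symm j) : P₁) : N) := by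
      funext j
      exact h₁ _
    rw [h7] at h6
    exact h6
  have h4 := hd c.support.card (fun j => ((ℬ (q.symm j) : P₁) : N))
    (fun j => ((c (q.symm j) : P₂) : N)) (fun j => (ℬ (q.symm j)).2) (fun j => (c (q.symm j)).2)
    h3 (by
      rw [← ht, ← Finset.sum_coe_sort c.support, ← q.symm.sum_comp]
      refine Finset.sum_congr rfl fun j _ => ?_
      rw [Algebra.TensorProduct.productMap_apply_tmul, h₁, h₂])
  have h5 : c = 0 := by
    refine Finsupp.ext fun i => ?_
    by_contra hi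
    have hi' : i ∈ c.support := Finsupp.mem_support_iff.2 fun h => hi (by rw [h]; rfl)
    have h6 := h4 (q ⟨i, hi'⟩)
    simp only [Equiv.symm_apply_apply] at h6
    exact hi (Subtype.ext h6)
  rw [h5, Finsupp.sum_zero_index]

/-- **The product of two regular local rings.** -/
theorem regP_prod (V : ValuationSubring N) (C₁ C₂ : Subring N)
    (hsep : PerfectField k ∨ ∀ z ∈ lo V.toSubring C₂, ∃ c : k,
      V.valuation (z - algebraMap k N c) < 1)
    (hC₁ : C₁ ≤ V.toSubring) (hC₂ : C₂ ≤ V.toSubring) (hk₁ : ∀ c : k, algebraMap k N c ∈ C₁)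
    (s : Set N) (hs : s.Finite) (hC₂s : C₂ = Subring.closure (Set.range (algebraMap k N) ∪ s))
    (hd : Dj k (lo V.toSubring C₁ : Set N) (lo V.toSubring C₂ : Set N))
    {ι₁ ι₂ : Type} [Fintype ι₁] [Fintype ι₂] {x₁ : ι₁ → N} {x₂ : ι₂ → N}
    (h₁ : RegP V.toSubring (lo V.toSubring C₁) x₁)
    (h₂ : RegP V.toSubring (lo V.toSubring C₂) x₂) :
    RegP V.toSubring (lo V.toSubring (Subring.closure ((C₁ : Set N) ∪ C₂)))
      (Sum.elim x₁ x₂) := by
  classical
  set P₁ := lo V.toSubring C₁ with hP₁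
  set P₂ := lo V.toSubring C₂ with hP₂
  have hk₂ : ∀ c : k, algebraMap k N c ∈ C₂ := fun c => by
    rw [hC₂s]; exact Subring.subset_closure (Or.inl ⟨c, rfl⟩)
  have hkP₁ : ∀ c : k, algebraMap k N c ∈ P₁ := fun c => le_lo _ _ (hk₁ c)
  have hkP₂ : ∀ c : k, algebraMap k N c ∈ P₂ := fun c => le_lo _ _ (hk₂ c)
  set C := Subring.closure ((C₁ : Set N) ∪ C₂) with hC
  have hC₁C : C₁ ≤ C := fun z hz => Subring.subset_closure (Or.inl hz)
  have hC₂C : C₂ ≤ C := fun z hz => Subring.subset_closure (Or.inr hz)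
  have hCV : C ≤ V.toSubring := by
    rw [hC, Subring.closure_le]
    rintro z (hz | hz)
    · exact hC₁ hz
    · exact hC₂ hz
  set P := lo V.toSubring C with hP
  have hPloc : IsLocalRing P := isLocalRing_lo (loc_V V) hCV
  have hP₁P : P₁ ≤ P := lo_mono hC₁C
  have hP₂P : P₂ ≤ P := lo_mono hC₂C
  have hreg₁ := h₁.reg
  have hreg₂ := h₂.reg
  let i₁ : Algebra k P₁ := subAlg k P₁ hkP₁
  let i₂ : Algebra k P₂ := subAlg k P₂ hkP₂
  let φ₁ : P₁ →ₐ[k] N := { P₁.subtype with commutes' := fun c => rfl }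
  let φ₂ : P₂ →ₐ[k] N := { P₂.subtype with commutes' := fun c => rfl }
  have hφ₁ : ∀ a, φ₁ a = a := fun a => rfl
  have hφ₂ : ∀ a, φ₂ a = a := fun a => rfl
  have hess : Algebra.EssFiniteType k P₂ := essFinite_lo V.toSubring C₂ hC₂ hkP₂ s hs hC₂s
  let φ := Algebra.TensorProduct.productMap φ₁ φ₂
  have hφ : ∀ a b, φ (a ⊗ₜ b) = (a : N) * b := fun a b =>
    Algebra.TensorProduct.productMap_apply_tmul _ _ _ _
  have hinj : Function.Injective φ := prod_inj P₁ P₂ hkP₁ hkP₂ hd i₁ i₂ φ₁ φ₂ hφ₁ hφ₂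
  have hφP : ∀ t, φ t ∈ P := by
    intro t
    induction t using TensorProduct.induction_on with
    | zero => rw [map_zero]; exact P.zero_mem
    | tmul a b => rw [hφ]; exact P.mul_mem (hP₁P a.2) (hP₂P b.2)
    | add a b ha hb => rw [map_add]; exact P.add_mem ha hb
  have hCφ : ∀ z ∈ C, ∃ t, φ t = z := by
    intro z hz
    have h3 : C ≤ φ.toRingHom.range := by
      rw [hC, Subring.closure_le]
      rintro z (hz | hz)
      · exact ⟨(⟨z, le_lo _ _ hz⟩ : P₁) ⊗ₜ 1, by
          change φ _ = z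
          rw [hφ]
          change z * 1 = z
          rw [mul_one]⟩
      · exact ⟨1 ⊗ₜ (⟨z, le_lo _ _ hz⟩ : P₂), by
          change φ _ = z
          rw [hφ]
          change 1 * z = z
          rw [one_mul]⟩
    exact h3 hz
  let ψ : P₁ ⊗[k] P₂ →+* P := φ.toRingHom.codRestrict P hφP
  have hψ : ∀ t, ((ψ t : P) : N) = φ t := fun t => rfl
  let q : Ideal (P₁ ⊗[k] P₂) := (maximalIdeal P).comap ψ
  have hq : q.IsPrime := Ideal.comap_isPrime ψ _
  have hmq : ∀ t, t ∉ q ↔ IsUnit (ψ t) := by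
    intro t
    change ¬ (ψ t ∈ maximalIdeal P) ↔ _
    rw [mem_maximalIdeal, mem_nonunits_iff, not_not]
  let _ : Algebra (P₁ ⊗[k] P₂) P := ψ.toAlgebra
  have hloc : IsLocalization.AtPrime P q :=
    { map_units := fun y => (hmq y.1).1 y.2
      surj := by
        rintro ⟨z, a, ha, b, hb, hb0, hbA, rfl⟩
        obtain ⟨a', ha'⟩ := hCφ a ha
        obtain ⟨b', hb'⟩ := hCφ b hb
        refine ⟨(a', ⟨b', ?_⟩), ?_⟩
        · change b' ∉ q
          rw [hmq, isUnit_lo_iff hCV, hψ, hb']
          exact ⟨hb0, hbA⟩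
        · apply Subtype.ext
          change a * b⁻¹ * (φ b' : N) = φ a'
          rw [ha', hb', mul_assoc, inv_mul_cancel₀ hb0, mul_one]
      exists_of_eq := by
        intro a b h
        refine ⟨1, ?_⟩
        have h1 : φ a = φ b := congrArg (Subtype.val : P → N) h
        rw [hinj h1] }
  let e := (IsLocalization.algEquiv q.primeCompl (Localization.AtPrime q) P).toRingEquiv
  have he : ∀ t, e (algebraMap (P₁ ⊗[k] P₂) (Localization.AtPrime q) t) = ψ t := fun t =>
    (IsLocalization.algEquiv q.primeCompl (Localization.AtPrime q) P).commutes t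
  have hm₁ : q.comap (algebraMap P₁ (P₁ ⊗[k] P₂)) = maximalIdeal P₁ := by
    ext a
    rw [Ideal.mem_comap, h₁.mem_max, ← not_iff_not, not_not, hmq, isUnit_lo_iff hCV, hψ]
    have h3 : φ (algebraMap P₁ (P₁ ⊗[k] P₂) a) = a := by
      change φ (a ⊗ₜ 1) = a
      rw [hφ]
      change (a : N) * 1 = a
      rw [mul_one]
    rw [h3]
  have hm₂ : ∀ b : P₂, (1 : P₁) ⊗ₜ[k] b ∈ q ↔ b ∈ maximalIdeal P₂ := by
    intro b
    rw [h₂.mem_max, ← not_iff_not, not_not, hmq, isUnit_lo_iff hCV, hψ]
    have h3 : φ ((1 : P₁) ⊗ₜ[k] b) = b := by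
      rw [hφ]
      change 1 * (b : N) = b
      rw [one_mul]
    rw [h3]
  have hfs : Algebra.FormallySmooth k (ResidueField P₂) := by
    rcases hsep with hsep | hsep
    · have hess' : Algebra.EssFiniteType k (ResidueField P₂) :=
        Algebra.EssFiniteType.of_surjective (IsScalarTower.toAlgHom k P₂ (ResidueField P₂))
          residue_surjective
      exact Algebra.FormallySmooth.of_perfectField
    · have hb : Function.Bijective (algebraMap k (ResidueField P₂)) := by
        refine ⟨(algebraMap k (ResidueField P₂)).injective, fun r => ?_⟩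
        obtain ⟨z, rfl⟩ := residue_surjective r
        obtain ⟨c, hc⟩ := hsep z.1 z.2
        refine ⟨c, ?_⟩
        have h3 : algebraMap k (ResidueField P₂) c = residue P₂ (algebraMap k P₂ c) := rfl
        rw [h3, ← sub_eq_zero, ← map_sub, residue_eq_zero_iff, ← neg_mem_iff, neg_sub,
          h₂.mem_max]
        rintro ⟨h4, h5⟩
        have h6 : ((z - algebraMap k P₂ c : P₂) : N) = (z : N) - algebraMap k N c := rfl
        rw [h6] at h4 h5
        have h7 : V.valuation ((z : N) - algebraMap k N c)⁻¹ ≤ 1 :=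
          (V.valuation_le_one_iff _).2 h5
        rw [map_inv₀] at h7
        have h8 := (inv_le_one₀ (zero_lt_iff.2 ((map_ne_zero _).2 h4))).1 h7
        exact absurd hc (not_lt.2 h8)
      exact Algebra.FormallySmooth.of_equiv
        (AlgEquiv.ofBijective (Algebra.ofId k (ResidueField P₂)) hb)
  obtain ⟨hreg, hind⟩ := tensor_regular hfs q hm₁ hm₂
  have hregP : IsRegularLocalRing P := IsRegularLocalRing.of_ringEquiv
    (R := Localization.AtPrime q)
    (IsLocalization.algEquiv q.primeCompl (Localization.AtPrime q) P).toRingEquiv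
  have hmem : ∀ i, Sum.elim x₁ x₂ i ∈ P := by
    rintro (i | i)
    · exact hP₁P (h₁.mem i)
    · exact hP₂P (h₂.mem i)
  refine ⟨lo_le hCV, ?_, hmem, hregP, fun z hz h0 h1 => inv_mem_lo hCV hz h0 h1, ?_⟩
  · rintro (i | i)
    · exact h₁.ne i
    · exact h₂.ne i
  · let X₁ : ι₁ → P₁ := fun i => ⟨x₁ i, h₁.mem i⟩
    let X₂ : ι₂ → P₂ := fun i => ⟨x₂ i, h₂.mem i⟩
    let N₁ := {i : ι₁ // X₁ i ∈ maximalIdeal P₁}
    let N₂ := {i : ι₂ // X₂ i ∈ maximalIdeal P₂}
    have h3 : Ind (fun i : N₁ => X₁ i) := h₁.ind.ind Subtype.val Subtype.val_injective fun i => i.2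
    have h4 : Ind (fun i : N₂ => X₂ i) := h₂.ind.ind Subtype.val Subtype.val_injective fun i => i.2
    have h5 := hind _ _ h3 h4
    have h6 : IndN (Sum.elim
        (fun i => algebraMap (P₁ ⊗[k] P₂) (Localization.AtPrime q) (X₁ i ⊗ₜ 1))
        (fun i => algebraMap (P₁ ⊗[k] P₂) (Localization.AtPrime q) (1 ⊗ₜ X₂ i))) := by
      refine IndN.of_ind (Sum.map (Subtype.val : N₁ → ι₁) (Subtype.val : N₂ → ι₂))
        (Sum.map_injective.2 ⟨Subtype.val_injective, Subtype.val_injective⟩) ?_ ?_
      · rintro (i | i) hi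
        · have h7 := (IsLocalization.AtPrime.to_map_mem_maximal_iff _ q _).1 hi
          have h8 : X₁ i ∈ maximalIdeal P₁ := by
            rw [← hm₁]; exact h7
          exact ⟨Sum.inl ⟨i, h8⟩, rfl⟩
        · have h7 := (IsLocalization.AtPrime.to_map_mem_maximal_iff _ q _).1 hi
          exact ⟨Sum.inr ⟨i, (hm₂ _).1 h7⟩, rfl⟩
      · convert h5 using 1
        funext i
        rcases i with i | i <;> rfl
    have h7 := h6.equiv e
    convert h7 using 1
    funext i
    rcases i with i | i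
    · apply Subtype.ext
      change x₁ i = _
      rw [Sum.elim_inl, he, hψ, hφ]
      change x₁ i = x₁ i * 1
      rw [mul_one]
    · apply Subtype.ext
      change x₂ i = _
      rw [Sum.elim_inr, he, hψ, hφ]
      change x₂ i = 1 * x₂ i
      rw [one_mul]

end prod

end Pool.Agent.T6.H41.TP
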