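import Pool.Agent.T6.H41.TP.A4
import Pool.Agent.H737.DT.Rf
import Pool.Agent.Y319.DT.Tr

/-!
# Strong uniformization of tensor product valuations
-/

set_option autoImplicit false
set_option linter.unusedVariables false
set_option linter.unusedSectionVars false

namespace Pool.Agent.T6.H41.TP

open IsLocalRing Pool.Agent.W418.LU2 Pool.Agent.H176.DT Pool.Agent.Y319.DT

section mono

variable {N : Type} [Field N] {ι κ μ : Type} [Fintype ι] [Fintype κ] [Fintype μ]

/-- Monomials in a part of the coordinates. -/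
lemma pmon_part {E : Type} [Field E] (f : E →+* N) {P : Subring E} {P' : Subring N}
    {x : ι → E} {x' : κ → N} (hP : ∀ e ∈ P, f e ∈ P') (hx : ∀ i, PMon P' x' (f (x i)))
    (hx' : ∀ i, x' i ≠ 0) {e : E} (he : PMon P x e) : PMon P' x' (f e) := by
  obtain ⟨u, u0, u1, u2, δ, rfl⟩ := he
  rw [map_mul]
  refine PMon.mul hx' ?_ ?_
  · refine ⟨f u, (_root_.map_ne_zero _).2 u0, hP u u1, ?_, 0, ?_⟩
    · rw [← map_inv₀]
      exact hP _ u2
    · rw [mo_zero, mul_one]
  · unfold mo
    rw [map_prod]
    refine pmon_prod hx' _ fun i _ => ?_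
    rw [map_zpow₀]
    rcases δ i with n | n
    · rw [Int.ofNat_eq_natCast, zpow_natCast]
      exact (hx i).pow hx' n
    · rw [zpow_negSucc]
      exact ((hx i).pow hx' _).inv

end mono

section su

variable {k N L F : Type} [Field k] [Field N] [Algebra k N] [Field L] [Field F]
  [Algebra L N] [Algebra F N]

/-- The element `z` is a sum of products of elements of `S` and `S'` whose values are not larger
than the value of `z`. -/
def Td {N : Type} [Field N] (V : ValuationSubring N) (S S' : Set N) (z : N) : Prop :=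
  ∃ (n : ℕ) (a b : Fin n → N), (∀ j, a j ∈ S) ∧ (∀ j, b j ∈ S') ∧ z = ∑ j, a j * b j ∧
    ∀ j, V.valuation (a j * b j) ≤ V.valuation z

lemma mem_comap_iff (V : ValuationSubring N) (e : L) : algebraMap L N e ∈ V.toSubring ↔
    e ∈ (V.comap (algebraMap L N)).toSubring := Iff.rfl

/-- The leading term. -/
lemma lead {V : ValuationSubring N} {P : Subring N} {ι : Type} [Fintype ι] {x : ι → N}
    (hP : RegP V.toSubring P x) {n : ℕ} (m : Fin n → N) {z : N} (hz0 : z ≠ 0)
    (hz : z = ∑ j, m j) (hv : ∀ j, V.valuation (m j) ≤ V.valuation z)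
    (hm : ∀ j, m j ≠ 0 → PMon P x (m j))
    (hr : ∀ j l, m j ≠ 0 → m l ≠ 0 → m j * (m l)⁻¹ ∈ V → m j * (m l)⁻¹ ∈ P) : PMon P x z := by
  have hv0 : V.valuation z ≠ 0 := (Valuation.ne_zero_iff _).2 hz0
  obtain ⟨l, hl⟩ : ∃ l, V.valuation (m l) = V.valuation z := by
    by_contra hcon
    push Not at hcon
    have h1 : V.valuation (∑ j, m j) < V.valuation z :=
      Valuation.map_sum_lt _ hv0 fun j _ => lt_of_le_of_ne (hv j) (hcon j)
    rw [← hz] at h1
    exact lt_irrefl _ h1
  have hl0 : m l ≠ 0 := (Valuation.ne_zero_iff V.valuation).1 (by rw [hl]; exact hv0)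
  have hu : z * (m l)⁻¹ ∈ P := by
    rw [hz, Finset.sum_mul]
    refine P.sum_mem fun j _ => ?_
    by_cases hj : m j = 0
    · rw [hj, zero_mul]
      exact P.zero_mem
    · refine hr j l hj hl0 ?_
      rw [← V.valuation_le_one_iff, map_mul, map_inv₀, hl, ← div_eq_mul_inv]
      exact (div_le_one₀ (zero_lt_iff.2 hv0)).2 (hv j)
  have hu0 : z * (m l)⁻¹ ≠ 0 := mul_ne_zero hz0 (inv_ne_zero hl0)
  have hu1 : (z * (m l)⁻¹)⁻¹ ∈ V.toSubring := by
    change (z * (m l)⁻¹)⁻¹ ∈ V
    rw [← V.valuation_le_one_iff, map_inv₀, map_mul, map_inv₀, hl, mul_inv_cancel₀ hv0, inv_one]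
  have h1 : z = (z * (m l)⁻¹) * m l := by
    rw [mul_assoc, inv_mul_cancel₀ hl0, mul_one]
  rw [h1]
  refine PMon.mul hP.ne ⟨_, hu0, hu, hP.inv _ hu hu0 hu1, 0, ?_⟩ (hm l hl0)
  rw [mo_zero, mul_one]

/-- **Stages of tensor product valuations.** -/
theorem stage_prod (V : ValuationSubring N) (A : Subring L) (B : Subring F)
    (hA : SU (V.comap (algebraMap L N)) A) (hB : SU (V.comap (algebraMap F N)) B)
    (hsep : PerfectField k ∨ ∀ z : F, algebraMap F N z ∈ V → ∃ c : k,
      V.valuation (algebraMap F N z - algebraMap k N c) < 1)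
    (hkA : ∀ c : k, ∃ a ∈ A, algebraMap L N a = algebraMap k N c)
    (s : Set N) (hs : s.Finite)
    (hBs : B.map (algebraMap F N) = Subring.closure (Set.range (algebraMap k N) ∪ s))
    (hd : Dj k (Set.range (algebraMap L N)) (Set.range (algebraMap F N)))
    (Z : Finset N) (hZ0 : ∀ z ∈ Z, z ≠ 0)
    (hdom : ∀ z ∈ Z, Td V (Set.range (algebraMap L N)) (Set.range (algebraMap F N)) z)
    (D : Finset L) (hD0 : ∀ e ∈ D, e ≠ 0) :
    ∃ (T : Set N) (n : ℕ) (x : Fin n → N),
      St V (Subring.closure ((A.map (algebraMap L N) : Set N) ∪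
        (B.map (algebraMap F N) : Set N))) T x ∧
      (∀ z ∈ Z, PMon (PP V (Subring.closure ((A.map (algebraMap L N) : Set N) ∪
        (B.map (algebraMap F N) : Set N))) T) x z) ∧
      (∀ e ∈ D, PMon (PP V (Subring.closure ((A.map (algebraMap L N) : Set N) ∪
        (B.map (algebraMap F N) : Set N))) T) x (algebraMap L N e)) ∧
      ∀ z ∈ Z, ∀ z' ∈ Z, z * z'⁻¹ ∈ V → z * z'⁻¹ ∈ PP V (Subring.closure
        ((A.map (algebraMap L N) : Set N) ∪ (B.map (algebraMap F N) : Set N))) T := by
  classical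
  choose! nz az bz haz hbz hzsum hzv using fun z (hz : z ∈ Z) => hdom z hz
  -- the stages of the factors
  let gL : Set L := {e | e ≠ 0 ∧ algebraMap L N e ∈ ⋃ z ∈ Z, Set.range (az z)} ∪ D
  let gF : Set F := {e | e ≠ 0 ∧ algebraMap F N e ∈ ⋃ z ∈ Z, Set.range (bz z)}
  have hGL : gL.Finite := by
    refine Set.Finite.union ?_ D.finite_toSet
    refine (Set.Finite.preimage ((algebraMap L N).injective.injOn)
      (Set.Finite.biUnion Z.finite_toSet fun z _ => Set.finite_range (az z))).subset ?_
    exact fun e he => he.2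
  have hGF : gF.Finite := by
    refine (Set.Finite.preimage ((algebraMap F N).injective.injOn)
      (Set.Finite.biUnion Z.finite_toSet fun z _ => Set.finite_range (bz z))).subset ?_
    exact fun e he => he.2
  obtain ⟨TL, nL, xL, hStL, hGLm⟩ := hA gL hGL fun e he =>
    he.elim (fun h => h.1) (hD0 e)
  obtain ⟨TF, nF, xF, hStF, hGFm⟩ := hB gF hGF fun e he => he.1
  have hR1 := RegP.map (algebraMap L N) (mem_comap_iff V) hStL.reg
  have hR2 := RegP.map (algebraMap F N) (mem_comap_iff V) hStF.reg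
  have hrange : ∀ {E : Type} [Field E] [Algebra E N] (S : Subring E), ∀ z ∈ lo V.toSubring
      (S.map (algebraMap E N)), z ∈ Set.range (algebraMap E N) := by
    rintro E _ _ S z ⟨_, ⟨a, ha, rfl⟩, _, ⟨b, hb, rfl⟩, hb0, hbA, rfl⟩
    exact ⟨a * b⁻¹, by rw [map_mul, map_inv₀]⟩
  have hd' : Dj k
      (lo V.toSubring ((Subring.closure ((A : Set L) ∪ TL)).map (algebraMap L N)) : Set N)
      (lo V.toSubring ((Subring.closure ((B : Set F) ∪ TF)).map (algebraMap F N)) : Set N) :=
    fun n a b ha hb => hd n a b (fun j => hrange _ _ (ha j)) (fun j => hrange _ _ (hb j))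
  have hC1V : (Subring.closure ((A : Set L) ∪ TL)).map (algebraMap L N) ≤ V.toSubring := by
    rintro _ ⟨e, he, rfl⟩
    exact hStL.reg.PA (le_lo _ _ he)
  have hC2V : (Subring.closure ((B : Set F) ∪ TF)).map (algebraMap F N) ≤ V.toSubring := by
    rintro _ ⟨e, he, rfl⟩
    exact hStF.reg.PA (le_lo _ _ he)
  have hC2s : (Subring.closure ((B : Set F) ∪ TF)).map (algebraMap F N) =
      Subring.closure (Set.range (algebraMap k N) ∪ (s ∪ algebraMap F N '' TF)) := by
    rw [RingHom.map_closure, Set.image_union]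
    apply le_antisymm
    · rw [Subring.closure_le]
      rintro z (hz | hz)
      · have h1 : z ∈ B.map (algebraMap F N) := hz
        rw [hBs] at h1
        exact Subring.closure_mono (Set.union_subset_union_right _ Set.subset_union_left) h1
      · exact Subring.subset_closure (Or.inr (Or.inr hz))
    · rw [Subring.closure_le]
      have h1 : Subring.closure (Set.range (algebraMap k N) ∪ s) ≤
          Subring.closure (algebraMap F N '' (B : Set F) ∪ algebraMap F N '' TF) := by
        rw [← hBs]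
        intro z hz
        exact Subring.subset_closure (Or.inl hz)
      rintro z (hz | hz | hz)
      · exact h1 (Subring.subset_closure (Or.inl hz))
      · exact h1 (Subring.subset_closure (Or.inr hz))
      · exact Subring.subset_closure (Or.inr hz)
  have hsep' : PerfectField k ∨ ∀ z ∈ lo V.toSubring
      ((Subring.closure ((B : Set F) ∪ TF)).map (algebraMap F N)), ∃ c : k,
      V.valuation (z - algebraMap k N c) < 1 := by
    refine hsep.imp id fun h z hz => ?_
    obtain ⟨e, rfl⟩ := hrange _ z hz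
    exact h e (lo_le hC2V hz)
  have hR := regP_prod (k := k) V _ _ hsep' hC1V hC2V (fun c => by
    obtain ⟨a, ha, ha'⟩ := hkA c
    exact ⟨a, Subring.subset_closure (Or.inl ha), ha'⟩) _ (hs.union (hStF.fin.image _)) hC2s
    hd' hR1 hR2
  -- the stage of the product
  set A' := Subring.closure ((A.map (algebraMap L N) : Set N) ∪
      (B.map (algebraMap F N) : Set N)) with hA'
  let T : Set N := algebraMap L N '' TL ∪ algebraMap F N '' TF
  have hTf : T.Finite := (hStL.fin.image _).union (hStF.fin.image _)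
  have hcl : Subring.closure ((A' : Set N) ∪ T) = Subring.closure
      (((Subring.closure ((A : Set L) ∪ TL)).map (algebraMap L N) : Set N) ∪
        ((Subring.closure ((B : Set F) ∪ TF)).map (algebraMap F N) : Set N)) := by
    apply le_antisymm
    · rw [Subring.closure_le]
      rintro z (hz | hz | hz)
      · have h1 : A' ≤ Subring.closure
            (((Subring.closure ((A : Set L) ∪ TL)).map (algebraMap L N) : Set N) ∪
              ((Subring.closure ((B : Set F) ∪ TF)).map (algebraMap F N) : Set N)) := by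
          rw [hA', Subring.closure_le]
          rintro _ (⟨e, he, rfl⟩ | ⟨e, he, rfl⟩)
          · exact Subring.subset_closure (Or.inl ⟨e, Subring.subset_closure (Or.inl he), rfl⟩)
          · exact Subring.subset_closure (Or.inr ⟨e, Subring.subset_closure (Or.inl he), rfl⟩)
        exact h1 hz
      · obtain ⟨e, he, rfl⟩ := hz
        exact Subring.subset_closure (Or.inl ⟨e, Subring.subset_closure (Or.inr he), rfl⟩)
      · obtain ⟨e, he, rfl⟩ := hz
        exact Subring.subset_closure (Or.inr ⟨e, Subring.subset_closure (Or.inr he), rfl⟩)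
    · rw [Subring.closure_le]
      rintro z (hz | hz)
      · have h1 : (Subring.closure ((A : Set L) ∪ TL)).map (algebraMap L N) ≤
            Subring.closure ((A' : Set N) ∪ T) := by
          rw [RingHom.map_closure, Subring.closure_le, Set.image_union]
          rintro _ (⟨e, he, rfl⟩ | hz)
          · exact Subring.subset_closure (Or.inl (Subring.subset_closure (Or.inl ⟨e, he, rfl⟩)))
          · exact Subring.subset_closure (Or.inr (Or.inl hz))
        exact h1 hz
      · have h1 : (Subring.closure ((B : Set F) ∪ TF)).map (algebraMap F N) ≤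
            Subring.closure ((A' : Set N) ∪ T) := by
          rw [RingHom.map_closure, Subring.closure_le, Set.image_union]
          rintro _ (⟨e, he, rfl⟩ | hz)
          · exact Subring.subset_closure (Or.inl (Subring.subset_closure (Or.inr ⟨e, he, rfl⟩)))
          · exact Subring.subset_closure (Or.inr (Or.inr hz))
        exact h1 hz
  have hPP : PP V A' T = lo V.toSubring (Subring.closure
      (((Subring.closure ((A : Set L) ∪ TL)).map (algebraMap L N) : Set N) ∪
        ((Subring.closure ((B : Set F) ∪ TF)).map (algebraMap F N) : Set N))) := by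
    unfold PP
    rw [hcl]
  rw [← hPP] at hR
  have hx0 := hR.ne
  have hself : ∀ i, PMon (PP V A' T) (Sum.elim (fun i => algebraMap L N (xL i))
      fun i => algebraMap F N (xF i)) (Sum.elim (fun i => algebraMap L N (xL i))
      (fun i => algebraMap F N (xF i)) i) := by
    intro i
    have h4 : PMon (PP V A' T) (Sum.elim (fun i => algebraMap L N (xL i))
      fun i => algebraMap F N (xF i)) (mo (Sum.elim (fun i => algebraMap L N (xL i))
      fun i => algebraMap F N (xF i)) (Pi.single i 1)) := PMon.of_mo _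
    rwa [mo_single] at h4
  have hLP : ∀ e ∈ PP (V.comap (algebraMap L N)) A TL, algebraMap L N e ∈ PP V A' T := by
    intro e he
    have h1 : algebraMap L N e ∈ lo V.toSubring
        ((Subring.closure ((A : Set L) ∪ TL)).map (algebraMap L N)) := by
      rw [lo_map (algebraMap L N) (mem_comap_iff V)]
      exact ⟨e, he, rfl⟩
    rw [hPP]
    exact lo_mono (fun z hz => Subring.subset_closure (Or.inl hz)) h1
  have hFP : ∀ e ∈ PP (V.comap (algebraMap F N)) B TF, algebraMap F N e ∈ PP V A' T := by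
    intro e he
    have h1 : algebraMap F N e ∈ lo V.toSubring
        ((Subring.closure ((B : Set F) ∪ TF)).map (algebraMap F N)) := by
      rw [lo_map (algebraMap F N) (mem_comap_iff V)]
      exact ⟨e, he, rfl⟩
    rw [hPP]
    exact lo_mono (fun z hz => Subring.subset_closure (Or.inr hz)) h1
  have hLm : ∀ e, PMon (PP (V.comap (algebraMap L N)) A TL) xL e →
      PMon (PP V A' T) (Sum.elim (fun i => algebraMap L N (xL i))
        fun i => algebraMap F N (xF i)) (algebraMap L N e) := fun e he =>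
    pmon_part (algebraMap L N) hLP (fun i => hself (Sum.inl i)) hx0 he
  have hFm : ∀ e, PMon (PP (V.comap (algebraMap F N)) B TF) xF e →
      PMon (PP V A' T) (Sum.elim (fun i => algebraMap L N (xL i))
        fun i => algebraMap F N (xF i)) (algebraMap F N e) := fun e he =>
    pmon_part (algebraMap F N) hFP (fun i => hself (Sum.inr i)) hx0 he
  have hSt : St V A' T (Sum.elim (fun i => algebraMap L N (xL i))
      fun i => algebraMap F N (xF i)) := by
    refine ⟨hTf, hR, ?_⟩
    obtain ⟨βL, hβL, hβLm, hβLT, hβLx⟩ := hStL.den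
    obtain ⟨βF, hβF, hβFm, hβFT, hβFx⟩ := hStF.den
    have hAA' : ∀ e ∈ A, algebraMap L N e ∈ A' := fun e he =>
      Subring.subset_closure (Or.inl ⟨e, he, rfl⟩)
    have hBA' : ∀ e ∈ B, algebraMap F N e ∈ A' := fun e he =>
      Subring.subset_closure (Or.inr ⟨e, he, rfl⟩)
    refine ⟨algebraMap L N βL * algebraMap F N βF, A'.mul_mem (hAA' _ hβL) (hBA' _ hβF),
      (hLm _ hβLm).mul hx0 (hFm _ hβFm), ?_, ?_⟩
    · rintro _ (⟨e, he, rfl⟩ | ⟨e, he, rfl⟩)
      · rw [mul_right_comm, ← map_mul]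
        exact A'.mul_mem (hAA' _ (hβLT e he)) (hBA' _ hβF)
      · rw [mul_assoc, ← map_mul]
        exact A'.mul_mem (hAA' _ hβL) (hBA' _ (hβFT e he))
    · rintro (i | i)
      · change algebraMap L N βL * algebraMap F N βF * algebraMap L N (xL i) ∈ A'
        rw [mul_right_comm, ← map_mul]
        exact A'.mul_mem (hAA' _ (hβLx i)) (hBA' _ hβF)
      · change algebraMap L N βL * algebraMap F N βF * algebraMap F N (xF i) ∈ A'
        rw [mul_assoc, ← map_mul]
        exact A'.mul_mem (hAA' _ hβL) (hBA' _ (hβFx i))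
  -- the products
  have hprod : ∀ z ∈ Z, ∀ j, az z j * bz z j ≠ 0 → PMon (PP V A' T)
      (Sum.elim (fun i => algebraMap L N (xL i)) fun i => algebraMap F N (xF i))
      (az z j * bz z j) := by
    intro z hz j h0
    obtain ⟨e, he⟩ := haz z hz j
    obtain ⟨f, hf⟩ := hbz z hz j
    have he0 : e ≠ 0 := by
      rintro rfl
      rw [map_zero] at he
      exact left_ne_zero_of_mul h0 he.symm
    have hf0 : f ≠ 0 := by
      rintro rfl
      rw [map_zero] at hf
      exact right_ne_zero_of_mul h0 hf.symm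
    have h5 : e ∈ gL := Or.inl ⟨he0, by rw [he]; exact Set.mem_biUnion hz ⟨j, rfl⟩⟩
    have h6 : f ∈ gF := ⟨hf0, by rw [hf]; exact Set.mem_biUnion hz ⟨j, rfl⟩⟩
    rw [← he, ← hf]
    exact (hLm _ (hGLm e h5).1).mul hx0 (hFm _ (hGFm f h6).1)
  let G1 : Set N := ⋃ z ∈ Z, (fun jl : Fin (nz z) × Fin (nz z) =>
    az z jl.1 * bz z jl.1 * (az z jl.2 * bz z jl.2)⁻¹) ''
      {jl | az z jl.1 * bz z jl.1 ≠ 0 ∧ az z jl.2 * bz z jl.2 ≠ 0}
  have hG1 : G1.Finite := Set.Finite.biUnion Z.finite_toSet fun z _ => (Set.toFinite _).image _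
  obtain ⟨T1, x1, hT1, hSt1, hRef1, -, hPM1, hV1⟩ := Pool.Agent.H737.DT.ref V A' T _ hSt G1 hG1 (by
    intro g hg
    obtain ⟨z, hz, jl, hjl, rfl⟩ := Set.mem_iUnion₂.1 hg
    exact (hprod z hz _ hjl.1).mul hx0 (hprod z hz _ hjl.2).inv)
  have hx1 := hSt1.reg.ne
  have hZm : ∀ z ∈ Z, PMon (PP V A' T1) x1 z := by
    intro z hz
    refine lead hSt1.reg (fun j => az z j * bz z j) (hZ0 z hz) (hzsum z hz) (hzv z hz)
      (fun j hj => hPM1 _ (hprod z hz j hj)) ?_
    intro j l hj hl hV
    exact hV1 _ (Set.mem_biUnion hz ⟨(j, l), ⟨hj, hl⟩, rfl⟩) hV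
  let G2 : Set N := ((fun p : N × N => p.1 * p.2⁻¹) '' ((Z ×ˢ Z : Finset (N × N)) : Set (N × N)))
  have hG2 : G2.Finite := (Finset.finite_toSet _).image _
  obtain ⟨T2, x2, hT2, hSt2, hRef2, -, hPM2, hV2⟩ :=
    Pool.Agent.H737.DT.ref V A' T1 x1 hSt1 G2 hG2 (by
      rintro _ ⟨⟨z, z'⟩, hp, rfl⟩
      have hp' := Finset.mem_product.1 (Finset.mem_coe.1 hp)
      exact (hZm z hp'.1).mul hx1 (hZm z' hp'.2).inv)
  let q : Fin (Fintype.card (Fin nL ⊕ Fin nF)) ≃ Fin nL ⊕ Fin nF := (Fintype.equivFin _).symm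
  refine ⟨T2, _, fun i => x2 (q i), ⟨hSt2.fin, regP_reindex hSt2.reg q, ?_⟩, ?_, ?_, ?_⟩
  · obtain ⟨β, h3, h4, h5, h6⟩ := hSt2.den
    exact ⟨β, h3, pmon_reindex h4 q, h5, fun i => h6 (q i)⟩
  · intro z hz
    exact pmon_reindex (hPM2 _ (hZm z hz)) q
  · intro e he
    exact pmon_reindex (hPM2 _ (hPM1 _ (hLm e (hGLm e (Or.inr he)).1))) q
  · intro z hz z' hz' hV
    exact hV2 _ ⟨(z, z'), Finset.mem_coe.2 (Finset.mem_product.2 ⟨hz, hz'⟩), rfl⟩ hV

end su

end Pool.Agent.T6.H41.TP
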