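import Pool.Agent.T6.H41.TP.A5

/-!
# The product step
-/

set_option autoImplicit false
set_option linter.unusedVariables false
set_option linter.unusedSectionVars false

namespace Pool.Agent.T6.H41.TP

open IsLocalRing Pool.Agent.W418.LU2 Pool.Agent.H176.DT Pool.Agent.Y319.DT

section dn

variable {N : Type} [Field N] {ι : Type} [Fintype ι]

/-- The ring of the elements with monomial denominators. -/
def dnRing (A' P : Subring N) (x : ι → N) (hx : ∀ i, x i ≠ 0) : Subring N where
  carrier := {z | Dn A' P x z}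
  mul_mem' := by
    rintro z z' ⟨b, hb, hm, h⟩ ⟨b', hb', hm', h'⟩
    refine ⟨b * b', A'.mul_mem hb hb', hm.mul hx hm', ?_⟩
    rw [mul_mul_mul_comm]
    exact A'.mul_mem h h'
  one_mem' := ⟨1, A'.one_mem, PMon.one, by rw [mul_one]; exact A'.one_mem⟩
  add_mem' := by
    rintro z z' ⟨b, hb, hm, h⟩ ⟨b', hb', hm', h'⟩
    refine ⟨b * b', A'.mul_mem hb hb', hm.mul hx hm', ?_⟩
    have h1 : b * b' * (z + z') = b' * (b * z) + b * (b' * z') := by ring
    rw [h1]
    exact A'.add_mem (A'.mul_mem hb' h) (A'.mul_mem hb h')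
  zero_mem' := ⟨1, A'.one_mem, PMon.one, by rw [mul_zero]; exact A'.zero_mem⟩
  neg_mem' := by
    rintro z ⟨b, hb, hm, h⟩
    refine ⟨b, hb, hm, ?_⟩
    rw [mul_neg]
    exact A'.neg_mem h

lemma mem_dnRing {A' P : Subring N} {x : ι → N} {hx : ∀ i, x i ≠ 0} {z : N} :
    z ∈ dnRing A' P x hx ↔ Dn A' P x z := Iff.rfl

lemma le_dnRing {A' P : Subring N} {x : ι → N} {hx : ∀ i, x i ≠ 0} : A' ≤ dnRing A' P x hx :=
  fun z hz => ⟨1, A'.one_mem, PMon.one, by rw [one_mul]; exact hz⟩

/-- Division by a monomial. -/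
lemma dn_of_mul {A' P : Subring N} {x : ι → N} (hx : ∀ i, x i ≠ 0) {β z : N}
    (hβ : Dn A' P x β) (hβm : PMon P x β) (hz : Dn A' P x (β * z)) : Dn A' P x z := by
  obtain ⟨b, hb, hm, h⟩ := hβ
  obtain ⟨b', hb', hm', h'⟩ := hz
  refine ⟨b * β * b', A'.mul_mem h hb', (hm.mul hx hβm).mul hx hm', ?_⟩
  have h1 : b * β * b' * z = b * (b' * (β * z)) := by ring
  rw [h1]
  exact A'.mul_mem hb h'

end dn

section step

variable {k N L : Type} [Field k] [Field N] [Algebra k N] [Field L] [Algebra L N]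

/-- Clearing of denominators. -/
lemma clear {V : ValuationSubring L} {A : Subring L} (hM : Mod V A) (W : Set N) {z : N}
    (hz : z ∈ Subring.closure (Set.range (algebraMap L N) ∪ W)) :
    ∃ d ∈ A, d ≠ 0 ∧ algebraMap L N d * z ∈
      Subring.closure ((A.map (algebraMap L N) : Set N) ∪ W) := by
  have hA : ∀ d ∈ A, algebraMap L N d ∈ Subring.closure ((A.map (algebraMap L N) : Set N) ∪ W) :=
    fun d hd => Subring.subset_closure (Or.inl ⟨d, hd, rfl⟩)
  induction hz using Subring.closure_induction with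
  | mem z hz =>
    rcases hz with ⟨e, rfl⟩ | hz
    · obtain ⟨a, ha, b, hb, hb0, rfl⟩ := hM.2 e
      refine ⟨b, hb, hb0, ?_⟩
      rw [← map_mul, mul_comm a, mul_inv_cancel_left₀ hb0]
      exact hA a ha
    · refine ⟨1, A.one_mem, one_ne_zero, ?_⟩
      rw [map_one, one_mul]
      exact Subring.subset_closure (Or.inr hz)
  | zero => exact ⟨1, A.one_mem, one_ne_zero, by rw [mul_zero]; exact Subring.zero_mem _⟩
  | one => exact ⟨1, A.one_mem, one_ne_zero, by
      rw [map_one, one_mul]; exact Subring.one_mem _⟩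
  | add z z' _ _ h h' =>
    obtain ⟨d, hd, hd0, h⟩ := h
    obtain ⟨d', hd', hd0', h'⟩ := h'
    refine ⟨d * d', A.mul_mem hd hd', mul_ne_zero hd0 hd0', ?_⟩
    have h1 : algebraMap L N (d * d') * (z + z') = algebraMap L N d' * (algebraMap L N d * z) +
        algebraMap L N d * (algebraMap L N d' * z') := by
      rw [map_mul]; ring
    rw [h1]
    exact Subring.add_mem _ (Subring.mul_mem _ (hA d' hd') h) (Subring.mul_mem _ (hA d hd) h')
  | neg z _ h =>
    obtain ⟨d, hd, hd0, h⟩ := h
    refine ⟨d, hd, hd0, ?_⟩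
    rw [mul_neg]
    exact Subring.neg_mem _ h
  | mul z z' _ _ h h' =>
    obtain ⟨d, hd, hd0, h⟩ := h
    obtain ⟨d', hd', hd0', h'⟩ := h'
    refine ⟨d * d', A.mul_mem hd hd', mul_ne_zero hd0 hd0', ?_⟩
    rw [map_mul, mul_mul_mul_comm]
    exact Subring.mul_mem _ h h'

/-- A factor of the extension `N` of `L` for the set `Z` of elements. -/
structure Fct (k : Type) {N L : Type} [Field k] [Field N] [Algebra k N] [Field L] [Algebra L N]
    (V : ValuationSubring N) (W Z : Set N) {F : Type} [Field F] [Algebra F N] (B : Subring F)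
    (s : Set N) : Prop where
  fin : s.Finite
  gen : B.map (algebraMap F N) = Subring.closure (Set.range (algebraMap k N) ∪ s)
  sub : ∀ b ∈ s, b ∈ Subring.closure (Set.range (algebraMap L N) ∪ W)
  su : SU (V.comap (algebraMap F N)) B
  sep : PerfectField k ∨ ∀ z : F, algebraMap F N z ∈ V → ∃ c : k,
      V.valuation (algebraMap F N z - algebraMap k N c) < 1
  dj : Dj k (Set.range (algebraMap L N)) (Set.range (algebraMap F N))
  dom : ∀ z ∈ Z, Td V (Set.range (algebraMap L N)) (Set.range (algebraMap F N)) z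

/-- **The product step.** -/
theorem su_step (V : ValuationSubring N) (A : Subring L)
    (hM : Mod (V.comap (algebraMap L N)) A) (hA : SU (V.comap (algebraMap L N)) A)
    (hkA : ∀ c : k, ∃ a ∈ A, algebraMap L N a = algebraMap k N c)
    (W : Finset N) (w' : N → N) (hw : ∀ z ∈ W, w' z = z ∨ w' z = z⁻¹) (hwV : ∀ z ∈ W, w' z ∈ V)
    (hfr : ∀ z : N, ∃ u ∈ Subring.closure (Set.range (algebraMap L N) ∪ (W : Set N)),
      ∃ v ∈ Subring.closure (Set.range (algebraMap L N) ∪ (W : Set N)), v ≠ 0 ∧ z * v = u)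
    (H : ∀ Z : Finset N, (∀ z ∈ Z, z ∈ Subring.closure
        (Set.range (algebraMap L N) ∪ (W : Set N))) →
      ∃ (F : Type) (_ : Field F) (_ : Algebra F N) (B : Subring F) (s : Set N),
        Fct (L := L) k V (W : Set N) (Z : Set N) B s) :
    SU V (Subring.closure ((A.map (algebraMap L N) : Set N) ∪ w' '' (W : Set N))) := by
  classical
  intro G hG hG0
  choose num hnum den hden hden0 hnd using hfr
  let Z : Finset N := insert 1 ((hG.toFinset.image num ∪ hG.toFinset.image den) ∪
    W.filter fun z => z ≠ 0)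
  have h1Z : (1 : N) ∈ Z := Finset.mem_insert_self _ _
  have hnZ : ∀ g ∈ G, num g ∈ Z := fun g hg => Finset.mem_insert_of_mem
    (Finset.mem_union_left _ (Finset.mem_union_left _ (Finset.mem_image_of_mem _
      (hG.mem_toFinset.2 hg))))
  have hdZ : ∀ g ∈ G, den g ∈ Z := fun g hg => Finset.mem_insert_of_mem
    (Finset.mem_union_left _ (Finset.mem_union_right _ (Finset.mem_image_of_mem _
      (hG.mem_toFinset.2 hg))))
  have hWZ : ∀ z ∈ W, z ≠ 0 → z ∈ Z := fun z hz h0 => Finset.mem_insert_of_mem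
    (Finset.mem_union_right _ (Finset.mem_filter.2 ⟨hz, h0⟩))
  have hZ : ∀ z ∈ Z, z ∈ Subring.closure (Set.range (algebraMap L N) ∪ (W : Set N)) ∧
      z ≠ 0 := by
    intro z hz
    rcases Finset.mem_insert.1 hz with rfl | hz
    · exact ⟨Subring.one_mem _, one_ne_zero⟩
    rcases Finset.mem_union.1 hz with hz | hz
    · rcases Finset.mem_union.1 hz with h | h
      · obtain ⟨g, hg, rfl⟩ := Finset.mem_image.1 h
        refine ⟨hnum g, ?_⟩
        rw [← hnd g]
        exact mul_ne_zero (hG0 g (hG.mem_toFinset.1 hg)) (hden0 g)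
      · obtain ⟨g, hg, rfl⟩ := Finset.mem_image.1 h
        exact ⟨hden g, hden0 g⟩
    · obtain ⟨h1, h2⟩ := Finset.mem_filter.1 hz
      exact ⟨Subring.subset_closure (Or.inr h1), h2⟩
  obtain ⟨F, _, _, B, s, hF⟩ := H Z fun z hz => (hZ z hz).1
  choose! d hdA hd0 hdm using fun b (hb : b ∈ s) => clear (N := N) hM (W : Set N) (hF.sub b hb)
  let D : Finset L := (hF.fin.toFinset).image d
  obtain ⟨T, n, x, hSt, hZm, hDm, hZV⟩ := stage_prod V A B hA hF.su hF.sep hkA s hF.fin hF.gen
    hF.dj Z (fun z hz => (hZ z hz).2) (fun z hz => hF.dom z hz) D (by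
      intro e he
      obtain ⟨b, hb, rfl⟩ := Finset.mem_image.1 he
      exact hd0 b (hF.fin.mem_toFinset.1 hb))
  set A'' := Subring.closure ((A.map (algebraMap L N) : Set N) ∪
    (B.map (algebraMap F N) : Set N)) with hA''
  set P := PP V A'' T with hP
  set A' := Subring.closure ((A.map (algebraMap L N) : Set N) ∪ w' '' (W : Set N)) with hA'
  have hx := hSt.reg.ne
  have hPV : Subring.closure ((A'' : Set N) ∪ T) ≤ V.toSubring := fun z hz =>
    hSt.reg.PA (le_lo _ _ hz)
  have hA''P : A'' ≤ P := fun z hz => le_lo _ _ (Subring.subset_closure (Or.inl hz))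
  have hAA' : ∀ e ∈ A, algebraMap L N e ∈ A' := fun e he =>
    Subring.subset_closure (Or.inl ⟨e, he, rfl⟩)
  have hDn1 : A' ≤ dnRing A' P x hx := le_dnRing
  have hDnW : ∀ z ∈ W, z ∈ dnRing A' P x hx := by
    intro z hz
    by_cases h0 : z = 0
    · rw [h0]; exact Subring.zero_mem _
    · have h1 : w' z ∈ A' := Subring.subset_closure (Or.inr ⟨z, hz, rfl⟩)
      rcases hw z hz with h | h
      · rw [h] at h1
        exact hDn1 h1
      · refine ⟨z⁻¹, by rw [← h]; exact h1, (hZm z (hWZ z hz h0)).inv, ?_⟩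
        rw [inv_mul_cancel₀ h0]
        exact A'.one_mem
  have hDn2 : Subring.closure ((A.map (algebraMap L N) : Set N) ∪ (W : Set N)) ≤
      dnRing A' P x hx := by
    rw [Subring.closure_le]
    rintro z (⟨e, he, rfl⟩ | hz)
    · exact hDn1 (hAA' e he)
    · exact hDnW z hz
  have hDns : ∀ b ∈ s, b ∈ dnRing A' P x hx := by
    intro b hb
    exact dn_of_mul hx (hDn1 (hAA' _ (hdA b hb)))
      (hDm _ (Finset.mem_image_of_mem _ (hF.fin.mem_toFinset.2 hb))) (hDn2 (hdm b hb))
  have hkA' : ∀ c : k, algebraMap k N c ∈ A' := fun c => by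
    obtain ⟨a, ha, h⟩ := hkA c
    rw [← h]
    exact hAA' a ha
  have hDnB : B.map (algebraMap F N) ≤ dnRing A' P x hx := by
    rw [hF.gen, Subring.closure_le]
    rintro z (⟨c, rfl⟩ | hz)
    · exact hDn1 (hkA' c)
    · exact hDns z hz
  have hDn'' : A'' ≤ dnRing A' P x hx := by
    rw [hA'', Subring.closure_le]
    rintro z (⟨e, he, rfl⟩ | hz)
    · exact hDn1 (hAA' e he)
    · exact hDnB hz
  have hA'P : A' ≤ P := by
    rw [hA', Subring.closure_le]
    rintro z (hz | ⟨z, hz, rfl⟩)
    · exact hA''P (Subring.subset_closure (Or.inl hz))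
    · by_cases h0 : z = 0
      · have h1 : w' z = 0 := by
          rcases hw z hz with h | h
          · rw [h, h0]
          · rw [h, h0, inv_zero]
        rw [h1]
        exact P.zero_mem
      · have h1 := hWZ z hz h0
        rcases hw z hz with h | h
        · have h2 := hZV z h1 1 h1Z (by rw [inv_one, mul_one, ← h]; exact hwV z hz)
          rw [inv_one, mul_one, ← h] at h2
          exact h2
        · have h2 := hZV 1 h1Z z h1 (by rw [one_mul, ← h]; exact hwV z hz)
          rw [one_mul, ← h] at h2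
          exact h2
  have hsP : ∀ b ∈ s, b ∈ P := by
    intro b hb
    have h1 : b ∈ B.map (algebraMap F N) := by
      rw [hF.gen]
      exact Subring.subset_closure (Or.inr hb)
    exact hA''P (Subring.subset_closure (Or.inr h1))
  have hPP : PP V A' (T ∪ s) = P := by
    refine lo_eq hPV ?_ ?_
    · rw [Subring.closure_le]
      have h1 : A.map (algebraMap L N) ≤ Subring.closure ((A' : Set N) ∪ (T ∪ s)) := by
        rintro _ ⟨e, he, rfl⟩
        exact Subring.subset_closure (Or.inl (hAA' e he))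
      have h2 : B.map (algebraMap F N) ≤ Subring.closure ((A' : Set N) ∪ (T ∪ s)) := by
        rw [hF.gen, Subring.closure_le]
        rintro z (⟨c, rfl⟩ | hz)
        · exact Subring.subset_closure (Or.inl (hkA' c))
        · exact Subring.subset_closure (Or.inr (Or.inr hz))
      have h3 : A'' ≤ Subring.closure ((A' : Set N) ∪ (T ∪ s)) := by
        rw [hA'', Subring.closure_le]
        rintro z (hz | hz)
        · exact h1 hz
        · exact h2 hz
      rintro z (hz | hz)
      · exact h3 hz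
      · exact Subring.subset_closure (Or.inr (Or.inl hz))
    · rw [Subring.closure_le]
      rintro z (hz | hz | hz)
      · exact hA'P hz
      · exact le_lo _ _ (Subring.subset_closure (Or.inr hz))
      · exact hsP z hz
  obtain ⟨β, hβ, hβm, hβT, hβx⟩ := hSt.den
  have hβD := hDn'' hβ
  obtain ⟨β', h1, h2, h3⟩ := common (A' := A') (P := P) (x := x) hx
    (Z := (T ∪ s) ∪ Set.range x) ((hSt.fin.union hF.fin).union (Set.finite_range x)) (by
    rintro z ((hz | hz) | ⟨i, rfl⟩)
    · exact dn_of_mul hx hβD hβm (hDn'' (hβT z hz))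
    · exact hDns z hz
    · exact dn_of_mul hx hβD hβm (hDn'' (hβx i)))
  refine ⟨T ∪ s, n, x, ⟨hSt.fin.union hF.fin, by rw [hPP]; exact hSt.reg,
    β', h1, by rw [hPP]; exact h2, fun z hz => h3 z (Or.inl hz),
    fun i => h3 _ (Or.inr ⟨i, rfl⟩)⟩, ?_⟩
  intro g hg
  have h4 : g = num g * (den g)⁻¹ := by
    rw [← hnd g, mul_assoc, mul_inv_cancel₀ (hden0 g), mul_one]
  rw [hPP]
  refine ⟨?_, fun hgV => ?_⟩
  · rw [h4]
    exact (hZm _ (hnZ g hg)).mul hx (hZm _ (hdZ g hg)).inv
  · rw [h4] at hgV ⊢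
    exact hZV _ (hnZ g hg) _ (hdZ g hg) hgV

end step

end Pool.Agent.T6.H41.TP
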