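import Pool.Agent.T6.H41.TP.A6
import Pool.Agent.H176.DT.C13
import Pool.Agent.H176.DT.H8

/-!
# The product step for subfields
-/

set_option autoImplicit false
set_option linter.unusedVariables false
set_option linter.unusedSectionVars false

namespace Pool.Agent.T6.H41.TP

open IsLocalRing Pool.Agent.W418.LU2 Pool.Agent.H176.DT Pool.Agent.Y319.DT

/-- Dedekind rings and isomorphisms. -/
theorem dedekind_equiv {R R' : Type} [CommRing R] [CommRing R'] [IsDomain R'] (e : R ≃+* R')
    [IsDedekindDomain R] : IsDedekindDomain R' := by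
  let _ : Algebra R R' := e.toRingHom.toAlgebra
  have hl : IsLocalization (⊥ : Submonoid R) R' :=
    { map_units := by
        rintro ⟨y, hy⟩
        have h1 : y = 1 := Submonoid.mem_bot.1 hy
        subst h1
        rw [map_one]
        exact isUnit_one
      surj := by
        intro z
        refine ⟨(e.symm z, 1), ?_⟩
        change z * e 1 = e (e.symm z)
        rw [map_one, mul_one, e.apply_symm_apply]
      exists_of_eq := by
        intro a b h
        have h1 : a = b := e.injective h
        exact ⟨1, by rw [h1]⟩ }
  exact IsLocalization.isDedekindDomain R (M := ⊥) bot_le R'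

variable {k K : Type} [Field k] [Field K] [Algebra k K]

/-- The conditions on the factor `B`. -/
structure FctK (V : ValuationSubring K) (L : Subfield K) (W Z : Set K) (B : Subalgebra k K) :
    Prop where
  fg : B.FG
  sub : ∀ b ∈ B, b ∈ Subring.closure ((L : Set K) ∪ W)
  inV : ∀ b ∈ B, b ∈ V
  unif : LogUnif (V.comap (Subfield.closure (B : Set K)).subtype)
    (B.toSubring.comap (Subfield.closure (B : Set K)).subtype)
  sep : PerfectField k ∨ ∀ z ∈ Subfield.closure (B : Set K), z ∈ V → ∃ c : k,
    V.valuation (z - algebraMap k K c) < 1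
  dj : Dj k (L : Set K) (Subfield.closure (B : Set K) : Set K)
  dom : ∀ z ∈ Z, Td V (L : Set K) (Subfield.closure (B : Set K) : Set K) z

section comap

/-- The restriction of a valuation. -/
lemma val_comap_le {N : Type} [Field N] (f : N →+* K) (V : ValuationSubring K) (a b : N) :
    (V.comap f).valuation a ≤ (V.comap f).valuation b ↔
      V.valuation (f a) ≤ V.valuation (f b) := by
  by_cases hb : b = 0
  · rw [hb, map_zero, map_zero, map_zero, le_zero_iff, le_zero_iff, map_eq_zero, map_eq_zero,
      map_eq_zero]
  · have h1 : 0 < (V.comap f).valuation b := zero_lt_iff.2 ((map_ne_zero _).2 hb)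
    have h2 : 0 < V.valuation (f b) :=
      zero_lt_iff.2 ((map_ne_zero _).2 ((map_ne_zero f).2 hb))
    rw [← div_le_one₀ h1, ← div_le_one₀ h2, ← map_div₀, ← map_div₀, ← map_div₀,
      V.valuation_le_one_iff, (V.comap f).valuation_le_one_iff]
    exact Iff.rfl

lemma val_comap_lt {N : Type} [Field N] (f : N →+* K) (V : ValuationSubring K) (a b : N) :
    (V.comap f).valuation a < (V.comap f).valuation b ↔
      V.valuation (f a) < V.valuation (f b) := by
  rw [← not_le, ← not_le, val_comap_le]

/-- Subrings of a subfield. -/
lemma map_inj (N : Subfield K) {S S' : Subring N} (h : S.map N.subtype = S'.map N.subtype) :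
    S = S' := by
  have key : ∀ S : Subring N, ∀ z : N, z ∈ S ↔ (z : K) ∈ S.map N.subtype := by
    intro S z
    constructor
    · intro hz
      exact ⟨z, hz, rfl⟩
    · rintro ⟨y, hy, hyz⟩
      have h2 : y = z := Subtype.ext hyz
      rw [← h2]
      exact hy
  ext z
  rw [key S, key S', h]

end comap

section sub

variable (V : ValuationSubring K) (R : Subring K) (hkR : ∀ c : k, algebraMap k K c ∈ R)
  {L : Subfield K} (W : Finset K)

/-- The models of subfields. -/
lemma mod_closure (B : Subalgebra k K) (hB : ∀ b ∈ B, b ∈ V) :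
    Mod (V.comap (Subfield.closure (B : Set K)).subtype)
      (B.toSubring.comap (Subfield.closure (B : Set K)).subtype) := by
  refine ⟨fun z hz => hB _ hz, fun z => ?_⟩
  obtain ⟨y, hy, w, hw, h⟩ := Subfield.mem_closure_iff.1 z.2
  have hcl : Subring.closure (B : Set K) = B.toSubring := Subring.closure_eq B.toSubring
  rw [hcl] at hy hw
  have hyF : y ∈ Subfield.closure (B : Set K) := Subfield.subset_closure hy
  have hwF : w ∈ Subfield.closure (B : Set K) := Subfield.subset_closure hw
  by_cases hw0 : w = 0
  · refine ⟨0, Subring.zero_mem _, 1, Subring.one_mem _, one_ne_zero, ?_⟩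
    apply Subtype.ext
    rw [zero_mul, ← h, hw0, div_zero]
    rfl
  · refine ⟨⟨y, hyF⟩, hy, ⟨w, hwF⟩, hw, fun h0 => hw0 (congrArg Subtype.val h0), ?_⟩
    apply Subtype.ext
    rw [← h, div_eq_mul_inv]
    rfl

include hkR

/-- **The product step.** -/
theorem inv_step (h : Inv V R L.subtype)
    (H : ∀ Z : Finset K, (∀ z ∈ Z, z ∈ Subring.closure ((L : Set K) ∪ (W : Set K))) →
      ∃ B : Subalgebra k K, FctK V L (W : Set K) (Z : Set K) B) :
    Inv V R (L ⊔ Subfield.closure (W : Set K)).subtype := by
  classical
  obtain ⟨hR, U, hU, hM, hSU⟩ := h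
  set N := L ⊔ Subfield.closure (W : Set K) with hN
  have hLN : L ≤ N := le_sup_left
  have hWN : ∀ z ∈ W, z ∈ N := fun z hz =>
    (le_sup_right : Subfield.closure (W : Set K) ≤ N) (Subfield.subset_closure hz)
  have hkL : ∀ c : k, algebraMap k K c ∈ L := fun c => by
    obtain ⟨w, hw⟩ := hR _ (hkR c)
    rw [← hw]
    exact w.2
  let _ : Algebra L N := (Subfield.inclusion hLN).toAlgebra
  let _ : Algebra k N := ((algebraMap k K).codRestrict N fun c => hLN (hkL c)).toAlgebra
  have hkN : ∀ c : k, ((algebraMap k N c : N) : K) = algebraMap k K c := fun c => rfl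
  have hLNc : ∀ e : L, ((algebraMap L N e : N) : K) = e := fun e => rfl
  set A : Subring L := Subring.closure (L.subtype ⁻¹' (R : Set K) ∪ U) with hA
  let VN := V.comap N.subtype
  have hVN : ∀ z : N, z ∈ VN ↔ (z : K) ∈ V := fun z => Iff.rfl
  let WN : Finset N := W.attach.image fun z => ⟨z.1, hWN z.1 z.2⟩
  have hWNm : ∀ z : N, z ∈ WN ↔ (z : K) ∈ W := by
    intro z
    constructor
    · intro hz
      obtain ⟨y, -, rfl⟩ := Finset.mem_image.1 hz
      exact y.2
    · intro hz
      exact Finset.mem_image.2 ⟨⟨z, hz⟩, Finset.mem_attach _ _, rfl⟩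
  have hWNi : N.subtype '' (WN : Set N) = (W : Set K) := by
    ext z
    constructor
    · rintro ⟨y, hy, rfl⟩
      exact (hWNm y).1 hy
    · intro hz
      exact ⟨⟨z, hWN z hz⟩, (hWNm _).2 hz, rfl⟩
  have hLi : N.subtype '' (Set.range (algebraMap L N)) = (L : Set K) := by
    ext z
    constructor
    · rintro ⟨_, ⟨e, rfl⟩, rfl⟩
      exact e.2
    · intro hz
      exact ⟨_, ⟨⟨z, hz⟩, rfl⟩, rfl⟩
  have hcl : ∀ z : N, z ∈ Subring.closure (Set.range (algebraMap L N) ∪ (WN : Set N)) ↔
      (z : K) ∈ Subring.closure ((L : Set K) ∪ (W : Set K)) := by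
    have h1 : (Subring.closure (Set.range (algebraMap L N) ∪ (WN : Set N))).map N.subtype =
        Subring.closure ((L : Set K) ∪ (W : Set K)) := by
      rw [RingHom.map_closure, Set.image_union, hWNi, hLi]
    intro z
    rw [← h1]
    constructor
    · intro hz
      exact ⟨z, hz, rfl⟩
    · rintro ⟨y, hy, hyz⟩
      have h2 : y = z := Subtype.ext hyz
      rw [← h2]
      exact hy
  let w' : N → N := fun z => if z ∈ VN then z else z⁻¹
  have hw' : ∀ z, w' z = z ∨ w' z = z⁻¹ := by
    intro z
    by_cases hz : z ∈ VN
    · exact Or.inl (if_pos hz)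
    · exact Or.inr (if_neg hz)
  have hw'V : ∀ z, w' z ∈ VN := by
    intro z
    by_cases hz : z ∈ VN
    · have h1 : w' z = z := if_pos hz
      rw [h1]
      exact hz
    · have h1 : w' z = z⁻¹ := if_neg hz
      rw [h1]
      exact (VN.mem_or_inv_mem z).resolve_left hz
  have hVL : VN.comap (algebraMap L N) = V.comap L.subtype := rfl
  have hM' : Mod (VN.comap (algebraMap L N)) A := hM
  have hSU' : SU (VN.comap (algebraMap L N)) A := hSU
  have hkA : ∀ c : k, ∃ a ∈ A, algebraMap L N a = algebraMap k N c := by
    intro c
    exact ⟨⟨algebraMap k K c, hkL c⟩, Subring.subset_closure (Or.inl (hkR c)),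
      Subtype.ext rfl⟩
  have key := su_step (k := k) VN A hM' hSU' hkA WN w' (fun z _ => hw' z) (fun z _ => hw'V z)
    (by
      intro z
      have h1 : (z : K) ∈ Subfield.closure ((L : Set K) ∪ (W : Set K)) := by
        have h2 : N ≤ Subfield.closure ((L : Set K) ∪ (W : Set K)) := by
          refine sup_le (fun z hz => Subfield.subset_closure (Or.inl hz)) ?_
          exact Subfield.closure_mono Set.subset_union_right
        exact h2 z.2
      obtain ⟨y, hy, w, hw, h2⟩ := Subfield.mem_closure_iff.1 h1
      have hsN : ∀ y ∈ Subring.closure ((L : Set K) ∪ (W : Set K)), y ∈ N := by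
        intro y hy
        have h3 : Subring.closure ((L : Set K) ∪ (W : Set K)) ≤ N.toSubring := by
          rw [Subring.closure_le]
          rintro y (hy | hy)
          · exact hLN hy
          · exact hWN y hy
        exact h3 hy
      by_cases hw0 : w = 0
      · refine ⟨0, Subring.zero_mem _, 1, Subring.one_mem _, one_ne_zero, ?_⟩
        apply Subtype.ext
        have h3 : (z : K) = 0 := by rw [← h2, hw0, div_zero]
        change (z : K) * 1 = 0
        rw [h3, mul_one]
      · refine ⟨⟨y, hsN y hy⟩, (hcl _).2 hy, ⟨w, hsN w hw⟩, (hcl _).2 hw,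
          fun h => hw0 (congrArg Subtype.val h), ?_⟩
        apply Subtype.ext
        change (z : K) * w = y
        rw [← h2, div_mul_cancel₀ _ hw0])
    (by
      intro Z hZ
      obtain ⟨B, hB⟩ := H (Finset.image (fun z : N => (z : K)) Z) (by
        intro z hz
        obtain ⟨y, hy, rfl⟩ := Finset.mem_image.1 hz
        exact (hcl y).1 (hZ y hy))
      set F := Subfield.closure (B : Set K) with hF
      have hBN : ∀ b ∈ B, b ∈ N := by
        intro b hb
        have h3 : Subring.closure ((L : Set K) ∪ (W : Set K)) ≤ N.toSubring := by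
          rw [Subring.closure_le]
          rintro y (hy | hy)
          · exact hLN hy
          · exact hWN y hy
        exact h3 (hB.sub b hb)
      have hFN : F ≤ N := by
        rw [hF, Subfield.closure_le]
        exact fun b hb => hBN b hb
      let _ : Algebra F N := (Subfield.inclusion hFN).toAlgebra
      have hFi : N.subtype '' (Set.range (algebraMap F N)) = (F : Set K) := by
        ext z
        constructor
        · rintro ⟨_, ⟨e, rfl⟩, rfl⟩
          exact e.2
        · intro hz
          exact ⟨_, ⟨⟨z, hz⟩, rfl⟩, rfl⟩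
      obtain ⟨S, hS⟩ := hB.fg
      have hSB : ∀ z ∈ S, z ∈ B := fun z hz => by
        rw [← hS]; exact Algebra.subset_adjoin hz
      let s : Set N := {z : N | (z : K) ∈ S}
      have hs : s.Finite := Set.Finite.preimage (Subtype.val_injective.injOn) S.finite_toSet
      have hBn : IsNoetherianRing (B.toSubring.comap F.subtype) := by
        have hft : Algebra.FiniteType k B := (Subalgebra.fg_iff_finiteType B).1 ⟨S, hS⟩
        have h1 : IsNoetherianRing B := Algebra.FiniteType.isNoetherianRing k B
        refine isNoetherianRing_of_surjective B _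
          { toFun := fun b => (⟨⟨b.1, Subfield.subset_closure b.2⟩, b.2⟩ :
              B.toSubring.comap F.subtype)
            map_one' := rfl
            map_mul' := fun _ _ => rfl
            map_zero' := rfl
            map_add' := fun _ _ => rfl } ?_
        rintro ⟨z, hz⟩
        exact ⟨⟨z.1, hz⟩, rfl⟩
      refine ⟨F, inferInstance, inferInstance, B.toSubring.comap F.subtype, s, ?_⟩
      refine ⟨hs, ?_, ?_, ?_, ?_, ?_, ?_⟩
      · -- generators
        apply map_inj N
        rw [RingHom.map_closure, Set.image_union]
        have h1 : N.subtype '' (Set.range (algebraMap k N)) = Set.range (algebraMap k K) := by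
          rw [← Set.range_comp]
          rfl
        have h2 : N.subtype '' s = (S : Set K) := by
          ext z
          constructor
          · rintro ⟨y, hy, rfl⟩
            exact hy
          · intro hz
            exact ⟨⟨z, hBN z (hSB z hz)⟩, hz, rfl⟩
        rw [h1, h2]
        have h3 : Subring.closure (Set.range (algebraMap k K) ∪ (S : Set K)) = B.toSubring := by
          rw [← hS]
          exact (Algebra.adjoin_eq_ring_closure (R := k) (S : Set K)).symm
        rw [h3]
        ext z
        constructor
        · rintro ⟨_, ⟨y, hy, rfl⟩, rfl⟩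
          exact hy
        · intro hz
          exact ⟨_, ⟨⟨z, Subfield.subset_closure hz⟩, hz, rfl⟩, rfl⟩
      · intro b hb
        exact (hcl b).2 (hB.sub _ (hSB _ hb))
      · exact Pool.Agent.Y67.DT.base' Pool.Agent.H737.DT.ref _ _ (mod_closure V B hB.inV) hB.unif
      · refine hB.sep.imp id fun h z hz => ?_
        obtain ⟨c, hc⟩ := h z.1 z.2 hz
        refine ⟨c, ?_⟩
        have h1 := (val_comap_lt N.subtype V (algebraMap F N z - algebraMap k N c) 1).2 (by
          rw [map_one, map_one]
          exact hc)
        rwa [map_one] at h1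
      · intro n a b ha hb hab hsum j
        have h1 := hB.dj n (fun j => (a j : K)) (fun j => (b j : K))
          (fun j => by
            have h2 : (a j : K) ∈ N.subtype '' (Set.range (algebraMap L N)) :=
              ⟨a j, ha j, rfl⟩
            rwa [hLi] at h2)
          (fun j => by
            have h2 : (b j : K) ∈ N.subtype '' (Set.range (algebraMap F N)) :=
              ⟨b j, hb j, rfl⟩
            rwa [hFi] at h2)
          (by
            let φ : N →ₗ[k] K :=
              { toFun := fun z => (z : K)
                map_add' := fun _ _ => rfl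
                map_smul' := fun c z => by
                  rw [Algebra.smul_def, RingHom.id_apply, Algebra.smul_def]
                  rfl }
            exact hab.map' φ (LinearMap.ker_eq_bot.2 fun a b h => Subtype.ext h))
          (by
            have h2 := congrArg (Subtype.val : N → K) hsum
            refine Eq.trans ?_ h2
            change _ = N.subtype (∑ j, a j * b j)
            rw [map_sum]
            rfl) j
        exact Subtype.ext h1
      · intro z hz
        obtain ⟨n, a, b, ha, hb, hab, hv⟩ := hB.dom (z : K)
          (Finset.mem_coe.2 (Finset.mem_image.2 ⟨z, Finset.mem_coe.1 hz, rfl⟩))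
        refine ⟨n, fun j => ⟨a j, hLN (ha j)⟩, fun j => ⟨b j, hFN (hb j)⟩,
          fun j => ⟨⟨a j, ha j⟩, rfl⟩, fun j => ⟨⟨b j, hb j⟩, rfl⟩, ?_, ?_⟩
        · apply Subtype.ext
          rw [hab]
          change _ = N.subtype (∑ j, (⟨a j, hLN (ha j)⟩ : N) * ⟨b j, hFN (hb j)⟩)
          rw [map_sum]
          rfl
        · intro j
          rw [val_comap_le]
          exact hv j)
  have hpre : algebraMap L N '' (L.subtype ⁻¹' (R : Set K)) = N.subtype ⁻¹' (R : Set K) := by
    ext z
    constructor
    · rintro ⟨w, hw, rfl⟩
      exact hw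
    · intro hz
      obtain ⟨w, hw⟩ := hR _ hz
      exact ⟨w, by rw [Set.mem_preimage, hw]; exact hz, Subtype.ext hw⟩
  have hcl2 : Subring.closure ((A.map (algebraMap L N) : Set N) ∪ w' '' (WN : Set N)) =
      Subring.closure (N.subtype ⁻¹' (R : Set K) ∪ (algebraMap L N '' U ∪ w' '' (WN : Set N))) := by
    rw [hA, RingHom.map_closure, Set.image_union, hpre, ← Set.union_assoc]
    apply le_antisymm
    · rw [Subring.closure_le]
      rintro z (hz | hz)
      · exact Subring.closure_mono Set.subset_union_left hz
      · exact Subring.subset_closure (Or.inr hz)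
    · rw [Subring.closure_le]
      rintro z (hz | hz)
      · exact Subring.subset_closure (Or.inl (Subring.subset_closure hz))
      · exact Subring.subset_closure (Or.inr hz)
  refine ⟨fun z hz => ?_, algebraMap L N '' U ∪ w' '' (WN : Set N),
    (hU.image _).union (WN.finite_toSet.image w'), ?_, ?_⟩
  · obtain ⟨w, hw⟩ := hR z hz
    exact ⟨algebraMap L N w, hw⟩
  · rw [← hcl2]
    refine ⟨?_, ?_⟩
    · rw [Subring.closure_le]
      rintro z (⟨e, he, rfl⟩ | ⟨z, hz, rfl⟩)
      · exact hM.1 he
      · exact hw'V z
    · intro z
      have h1 : ∀ z : N, z ∈ fr (Subring.closure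
          ((A.map (algebraMap L N) : Set N) ∪ w' '' (WN : Set N))) := by
        have h2 : ∀ e : L, algebraMap L N e ∈ fr (Subring.closure
            ((A.map (algebraMap L N) : Set N) ∪ w' '' (WN : Set N))) := by
          intro e
          obtain ⟨a, ha, b, hb, hb0, rfl⟩ := hM.2 e
          rw [map_mul, map_inv₀]
          exact mul_mem (le_fr _ (Subring.subset_closure (Or.inl ⟨a, ha, rfl⟩)))
            (inv_mem (le_fr _ (Subring.subset_closure (Or.inl ⟨b, hb, rfl⟩))))
        have h3 : ∀ z ∈ WN, z ∈ fr (Subring.closure
            ((A.map (algebraMap L N) : Set N) ∪ w' '' (WN : Set N))) := by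
          intro z hz
          have h4 : w' z ∈ fr (Subring.closure
            ((A.map (algebraMap L N) : Set N) ∪ w' '' (WN : Set N))) :=
            le_fr _ (Subring.subset_closure (Or.inr ⟨z, hz, rfl⟩))
          rcases hw' z with h | h
          · rwa [h] at h4
          · rw [h] at h4
            have h5 := inv_mem h4
            rwa [inv_inv] at h5
        have h4 : N ≤ (fr (Subring.closure
            ((A.map (algebraMap L N) : Set N) ∪ w' '' (WN : Set N)))).map N.subtype := by
          refine sup_le ?_ ?_
          · intro z hz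
            exact ⟨_, h2 ⟨z, hz⟩, rfl⟩
          · rw [Subfield.closure_le]
            intro z hz
            exact ⟨_, h3 ⟨z, hWN z hz⟩ ((hWNm _).2 hz), rfl⟩
        intro z
        obtain ⟨y, hy, hyz⟩ := h4 z.2
        have h5 : y = z := Subtype.ext hyz
        rw [← h5]
        exact hy
      obtain ⟨d, hd, hd0, hz⟩ := h1 z
      exact ⟨z * d, hz, d, hd, hd0, by rw [mul_assoc, mul_inv_cancel₀ hd0, mul_one]⟩
  · rw [← hcl2]
    exact key

end sub

end Pool.Agent.T6.H41.TP
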